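import Pool.Agent.Run7.h946.SQ.Use

/-!
# Beatty sequences as Bohr sets
-/

set_option autoImplicit false
set_option maxHeartbeats 4000000

namespace Run7.h946.SQ

open Finset Filter Topology

/-- `p` is a prime and belongs to the Beatty sequences `⌊β_j m + γ_j⌋`, `m ∈ ℤ`, for all `j`. -/
def BeattyPrime {r : ℕ} (β γ : Fin r → ℝ) (p : ℕ) : Prop := p.Prime ∧ ∀ j, ∃ m : ℤ, (p : ℤ) = ⌊β j * m + γ j⌋

theorem beattyPrime_iff {r : ℕ} {β : Fin r → ℝ} (hβ : ∀ j, 1 ≤ β j) (γ : Fin r → ℝ) (p : ℕ) :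
    BeattyPrime β γ p ↔ Bohr (fun j => -(1 / β j)) (fun j => -(γ j / β j)) (fun j => -(γ j / β j) + 1 / β j) p := by
  unfold BeattyPrime Bohr
  simp_rw [Pool.Agent.Run7.h609.MK.beatty_iff _ _ (hβ _) p]

theorem cnt_congr {P Q : ℕ → Prop} (h : ∀ p, P p ↔ Q p) (s t : ℕ) : cnt P s t = cnt Q s t := by
  have : P = Q := funext fun p => propext (h p)
  rw [this]

theorem Independent.neg {r : ℕ} {α : Fin r → ℝ} (h : Independent α) : Independent (fun j => -(α j)) := by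
  intro g hg b hb
  apply h (-g) (neg_ne_zero.2 hg) b
  rw [← hb]
  refine sum_congr rfl fun j _ => ?_
  rw [Pi.neg_apply]
  push_cast
  ring

/-- the volume of the box -/
theorem beatty_vol {r : ℕ} {β : Fin r → ℝ} (γ : Fin r → ℝ) :
    ∏ j, ((-(γ j / β j) + 1 / β j) - (-(γ j / β j))) = (∏ j, β j)⁻¹ := by
  rw [← Finset.prod_inv_distrib]
  refine prod_congr rfl fun j _ => ?_
  ring

/-- primes in intersections of Beatty sequences between squares -/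
theorem Good.beatty {r : ℕ} {β : Fin r → ℝ} (hβ : ∀ j, 1 ≤ β j) {W : ℕ} {ε : ℝ} {n : ℕ}
    (h : Good (fun j => -(1 / β j)) W ε n) {s t : ℕ} (hs : (n - 1) ^ 2 ≤ s) (hst : s ≤ t) (ht : t ≤ (n + 2) ^ 2)
    (hlen : (n : ℝ) / Real.log n ^ W ≤ (t : ℝ) - s) (γ : Fin r → ℝ) :
    |(cnt (BeattyPrime β γ) s t : ℝ) - (∏ j, β j)⁻¹ * (((t : ℝ) - s) / (2 * Real.log n))| ≤
      ε * (((t : ℝ) - s) / (2 * Real.log n)) := by
  rw [cnt_congr (beattyPrime_iff hβ γ), ← beatty_vol γ]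
  refine h s t hs hst ht hlen _ _ (fun j => ?_) (fun j => ?_)
  · have : 0 ≤ 1 / β j := by
      have := hβ j
      positivity
    linarith
  · have h4 := hβ j
    have : 1 / β j ≤ 1 := by
      rw [div_le_one (by linarith)]
      exact h4
    linarith

/-- the exceptional set for Beatty sequences -/
theorem exceptional_beatty {r : ℕ} {β : Fin r → ℝ} (hβ : ∀ j, 1 ≤ β j) (hind : Independent (fun j => 1 / β j)) :
    ∃ E : Set ℕ, IsThin E ∧ ∀ (W : ℕ) (ε : ℝ), 0 < ε → ∃ n₀ : ℕ, ∀ n : ℕ, n₀ ≤ n → n ∉ E → ∀ s t : ℕ,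
      (n - 1) ^ 2 ≤ s → s ≤ t → t ≤ (n + 2) ^ 2 → (n : ℝ) / Real.log n ^ W ≤ (t : ℝ) - s → ∀ γ : Fin r → ℝ,
      |(cnt (BeattyPrime β γ) s t : ℝ) - (∏ j, β j)⁻¹ * (((t : ℝ) - s) / (2 * Real.log n))| ≤
        ε * (((t : ℝ) - s) / (2 * Real.log n)) := by
  obtain ⟨E, hE, h⟩ := exceptional hind.neg
  refine ⟨E, hE, fun W ε hε => ?_⟩
  obtain ⟨n₀, h1⟩ := h W ε hε
  exact ⟨n₀, fun n hn hnE s t hs hst ht hlen γ => (h1 n hn hnE).beatty hβ hs hst ht hlen γ⟩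

end Run7.h946.SQ
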