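import Pool.Agent.Run7.h946.SQ.Use

/-!
# Long intervals between squares, and the squares of consecutive primes
-/

set_option autoImplicit false
set_option maxHeartbeats 4000000

namespace Run7.h946.SQ

open Finset Filter Topology

/-- gluing of estimates on adjacent intervals -/
theorem glue (P : ℕ → Prop) {K e : ℝ} {s x t : ℕ} (h1 : s ≤ x) (h2 : x ≤ t)
    (h3 : |(cnt P s x : ℝ) - K * ((x : ℝ) - s)| ≤ e * ((x : ℝ) - s))
    (h4 : |(cnt P x t : ℝ) - K * ((t : ℝ) - x)| ≤ e * ((t : ℝ) - x)) :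
    |(cnt P s t : ℝ) - K * ((t : ℝ) - s)| ≤ e * ((t : ℝ) - s) := by
  rw [cnt_add P h1 h2]
  push_cast
  rw [abs_le] at h3 h4 ⊢
  constructor <;> nlinarith [h3.1, h3.2, h4.1, h4.2]

/-- estimates between `n²` and `(n + 2)²` give estimates for longer intervals -/
theorem chain (P : ℕ → Prop) {K e ℓ : ℝ} {a b : ℕ} (hℓ : ℓ ≤ (a : ℝ) + 1)
    (h : ∀ n : ℕ, a ≤ n → n < b → ∀ s t : ℕ, n ^ 2 ≤ s → s ≤ t → t ≤ (n + 2) ^ 2 → ℓ ≤ (t : ℝ) - s →
      |(cnt P s t : ℝ) - K * ((t : ℝ) - s)| ≤ e * ((t : ℝ) - s)) :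
    ∀ m n s t : ℕ, a ≤ n → n < b → b ≤ n + m → n ^ 2 ≤ s → s ≤ (n + 1) ^ 2 → s ≤ t → t ≤ b ^ 2 → ℓ ≤ (t : ℝ) - s →
      |(cnt P s t : ℝ) - K * ((t : ℝ) - s)| ≤ e * ((t : ℝ) - s) := by
  intro m
  induction m with
  | zero => intro n s t _ h2 h3 _ _ _ _ _; omega
  | succ m ih =>
    intro n s t h1 h2 h3 h4 h5 h6 h7 h8
    rcases Nat.lt_or_ge ((n + 2) ^ 2) t with h9 | h9
    · obtain ⟨x, hx⟩ : ∃ x, x = (n + 1) ^ 2 + (n + 1) := ⟨_, rfl⟩
      have hbn : n + 2 < b := by
        by_contra hcon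
        have : b ^ 2 ≤ (n + 2) ^ 2 := Nat.pow_le_pow_left (by omega) 2
        omega
      have e1 : (n + 2) ^ 2 = x + (n + 2) := by rw [hx]; ring
      have hsx : s + (n + 1) ≤ x := by omega
      have hsx' : (s : ℝ) + (n + 1) ≤ x := by exact_mod_cast hsx
      have hxt : x + (n + 2) ≤ t := by omega
      have hxt' : (x : ℝ) + (n + 2) ≤ t := by exact_mod_cast hxt
      have han : (a : ℝ) ≤ n := by exact_mod_cast h1
      refine glue P (x := x) (by omega) (by omega) (h n h1 h2 s x h4 (by omega) (by omega) (by linarith)) ?_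
      refine ih (n + 1) x t (by omega) (by omega) (by omega) (by omega) ?_ (by omega) h7 (by linarith)
      have e2 : (n + 1 + 1) ^ 2 = x + (n + 2) := by rw [hx]; ring
      omega
    · exact h n h1 h2 s t h4 h6 h9 h8

/-- the primes `p` such that some integer from `p` to the next prime is in `E` -/
def primesBefore (E : Set ℕ) : Set ℕ := {p | p.Prime ∧ ∃ n ∈ E, p ≤ n ∧ ∀ l, p < l → l ≤ n → ¬ l.Prime}

theorem IsThin.primesBefore {E : Set ℕ} (h : IsThin E) : IsThin (primesBefore E) := by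
  classical
  intro A
  obtain ⟨X₀, h1⟩ := h (A + 1)
  refine ⟨max X₀ 8, fun X hX => ?_⟩
  have hX8 : (8 : ℝ) ≤ X := by exact_mod_cast (le_trans (le_max_right _ _) hX)
  have h2 := h1 (2 * X) (by have := le_trans (le_max_left _ _) hX; omega)
  have h3 : ((Icc 1 X).filter (fun n => n ∈ Run7.h946.SQ.primesBefore E)).card ≤
      ((Icc 1 (2 * X)).filter (fun n => n ∈ E)).card := by
    have key : ∀ p : ℕ, ∃ n, p ∈ Run7.h946.SQ.primesBefore E → p.Prime ∧ n ∈ E ∧ p ≤ n ∧ ∀ l, p < l → l ≤ n → ¬ l.Prime := by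
      intro p
      by_cases hp : p ∈ Run7.h946.SQ.primesBefore E
      · obtain ⟨h4, n, h5, h6, h7⟩ := hp
        exact ⟨n, fun _ => ⟨h4, h5, h6, h7⟩⟩
      · exact ⟨0, fun h => absurd h hp⟩
    choose f hf using key
    refine card_le_card_of_injOn f ?_ ?_
    · intro p hp
      rw [mem_coe, mem_filter, mem_Icc] at hp
      obtain ⟨h4, h5, h6, h7⟩ := hf p hp.2
      rw [mem_coe, mem_filter, mem_Icc]
      refine ⟨⟨by omega, ?_⟩, h5⟩
      obtain ⟨l, g1, g2, g3⟩ := Nat.exists_prime_lt_and_le_two_mul p (by omega)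
      by_contra hcon
      exact h7 l g2 (by omega) g1
    · intro p hp q hq hpq
      rw [mem_coe, mem_filter, mem_Icc] at hp hq
      obtain ⟨h4, h5, h6, h7⟩ := hf p hp.2
      obtain ⟨g4, g5, g6, g7⟩ := hf q hq.2
      rcases Nat.lt_trichotomy p q with h8 | h8 | h8
      · exact absurd g4 (h7 q h8 (hpq ▸ g6))
      · exact h8
      · exact absurd h4 (g7 p h8 (hpq ▸ h6))
  have hlog : 2 ≤ Real.log (2 * X) := by
    rw [Real.le_log_iff_exp_le (by linarith)]
    have h4 : Real.exp 2 = Real.exp 1 * Real.exp 1 := by rw [← Real.exp_add]; norm_num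
    have := Real.exp_one_lt_d9
    have h5 := Real.exp_pos 1
    rw [h4]
    nlinarith
  have hlogX : 0 < Real.log X := Real.log_pos (by linarith)
  have hle : Real.log X ≤ Real.log (2 * X) := Real.log_le_log (by linarith) (by linarith)
  calc (((Icc 1 X).filter (fun n => n ∈ Run7.h946.SQ.primesBefore E)).card : ℝ)
      ≤ ((Icc 1 (2 * X)).filter (fun n => n ∈ E)).card := by exact_mod_cast h3
    _ ≤ ((2 * X : ℕ) : ℝ) / Real.log ((2 * X : ℕ) : ℝ) ^ (A + 1) := h2
    _ ≤ X / Real.log X ^ A := by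
        push_cast
        rw [pow_succ, div_le_div_iff₀ (by positivity) (by positivity)]
        have h6 : Real.log X ^ A ≤ Real.log (2 * X) ^ A := pow_le_pow_left₀ hlogX.le hle A
        have h7 : 0 ≤ Real.log (2 * X) ^ A := by positivity
        calc 2 * (X : ℝ) * Real.log X ^ A ≤ 2 * X * Real.log (2 * X) ^ A :=
              mul_le_mul_of_nonneg_left h6 (by positivity)
          _ = X * (Real.log (2 * X) ^ A * 2) := by ring
          _ ≤ X * (Real.log (2 * X) ^ A * Real.log (2 * X)) := by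
              apply mul_le_mul_of_nonneg_left _ (by linarith)
              exact mul_le_mul_of_nonneg_left hlog h7

/-- change of the logarithm in the estimates -/
theorem change_log {c w T l l' ε η : ℝ} (hl : 0 < l) (hll : l ≤ l') (hη : l' ≤ (1 + η) * l) (hη0 : 0 ≤ η) (hT : 0 ≤ T)
    (hw0 : 0 ≤ w) (hw1 : w ≤ 1) (hε : 0 ≤ ε) (h : |c - w * (T / (2 * l'))| ≤ ε * (T / (2 * l'))) :
    |c - w / (2 * l) * T| ≤ (ε + η) / (2 * l) * T := by
  have hl' : 0 < l' := lt_of_lt_of_le hl hll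
  have h1 : T / (2 * l') ≤ T / (2 * l) := div_le_div_of_nonneg_left hT (by positivity) (by linarith)
  have h2 : T / (2 * l) ≤ (1 + η) * (T / (2 * l')) := by
    rw [div_le_iff₀ (by positivity)]
    have h3 : (1 + η) * (T / (2 * l')) * (2 * l) = T * ((1 + η) * l / l') := by
      field_simp
    rw [h3]
    have h4 : 1 ≤ (1 + η) * l / l' := by
      rw [le_div_iff₀ hl']
      linarith
    nlinarith
  have h3 : T / (2 * l') ≥ 0 := by positivity
  have h4 : w / (2 * l) * T = w * (T / (2 * l)) := by ring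
  have h5 : (ε + η) / (2 * l) * T = ε * (T / (2 * l)) + η * (T / (2 * l)) := by ring
  rw [h4, h5]
  have h6 : 0 ≤ T / (2 * l) := by positivity
  have h7 : 0 ≤ w * (T / (2 * l) - T / (2 * l')) := mul_nonneg hw0 (by linarith)
  have h8 : w * (T / (2 * l) - T / (2 * l')) ≤ 1 * (T / (2 * l) - T / (2 * l')) :=
    mul_le_mul_of_nonneg_right hw1 (by linarith)
  have h9 : T / (2 * l) - T / (2 * l') ≤ η * (T / (2 * l')) := by linarith
  have h10 : η * (T / (2 * l')) ≤ η * (T / (2 * l)) := mul_le_mul_of_nonneg_left h1 hη0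
  have h11 : ε * (T / (2 * l')) ≤ ε * (T / (2 * l)) := mul_le_mul_of_nonneg_left h1 hε
  rw [abs_le] at h ⊢
  constructor
  · nlinarith [h.1, h.2]
  · nlinarith [h.1, h.2]

end Run7.h946.SQ
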