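import Mathlib

/-!
# Tilings of short intervals by windows with starting points in a fixed residue class
-/

set_option autoImplicit false

namespace Run7.h946.SQ

open Finset

open Classical in
/-- the number of the elements of `(s, t]` with the property `P` -/
noncomputable def cnt (P : ℕ → Prop) (s t : ℕ) : ℕ := ((Ioc s t).filter P).card

theorem cnt_mono (P : ℕ → Prop) {s s' t t' : ℕ} (h1 : s' ≤ s) (h2 : t ≤ t') : cnt P s t ≤ cnt P s' t' := by
  classical
  unfold cnt
  apply card_le_card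
  intro m hm
  rw [mem_filter, mem_Ioc] at hm ⊢
  exact ⟨⟨by omega, by omega⟩, hm.2⟩

theorem cnt_self (P : ℕ → Prop) (s : ℕ) : cnt P s s = 0 := by
  classical
  unfold cnt
  simp

theorem cnt_add (P : ℕ → Prop) {s t w : ℕ} (h1 : s ≤ t) (h2 : t ≤ w) : cnt P s w = cnt P s t + cnt P t w := by
  classical
  unfold cnt
  rw [← card_union_of_disjoint]
  · congr 1
    rw [← filter_union, Ioc_union_Ioc_eq_Ioc h1 h2]
  · rw [disjoint_left]
    intro m hm hm'
    rw [mem_filter, mem_Ioc] at hm hm'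
    omega

theorem cnt_tile (P : ℕ → Prop) (H m k : ℕ) :
    cnt P m (m + k * H) = ∑ i ∈ range k, cnt P (m + i * H) (m + i * H + H) := by
  induction k with
  | zero => simp [cnt_self]
  | succ k ih =>
    rw [sum_range_succ, ← ih, cnt_add P (t := m + k * H) (by omega) (by rw [add_mul, one_mul]; omega)]
    congr 2
    ring

/-- a good residue class of starting points -/
theorem exists_residue (E : Finset ℕ) {H : ℕ} (h : E.card < H) : ∃ ρ, ρ < H ∧ ∀ m ∈ E, m % H ≠ ρ := by
  by_contra hc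
  push Not at hc
  have h1 : range H ⊆ E.image (fun m => m % H) := by
    intro ρ hρ
    rw [mem_range] at hρ
    obtain ⟨m, hm, e⟩ := hc ρ hρ
    exact mem_image.2 ⟨m, hm, e⟩
  have h2 := card_le_card h1
  rw [card_range] at h2
  have h3 := card_image_le (s := E) (f := fun m => m % H)
  omega

/-- from the windows with starting points in a residue class to all intervals -/
theorem tile (P : ℕ → Prop) {H a b ρ : ℕ} (hH : 1 ≤ H) (ha : H ≤ a) (hρ : ρ < H) {lo hi : ℝ}
    (hlo : 0 ≤ lo) (hhi : 0 ≤ hi)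
    (h : ∀ m, a < m + H → m ≤ b → m % H = ρ → lo ≤ cnt P m (m + H) ∧ (cnt P m (m + H) : ℝ) ≤ hi)
    {s t : ℕ} (hs : a ≤ s) (hst : s ≤ t) (ht : t ≤ b) :
    (cnt P s t : ℝ) * H ≤ ((t : ℝ) - s + 2 * H) * hi ∧ ((t : ℝ) - s - 2 * H) * lo ≤ cnt P s t * H := by
  -- the first starting point
  obtain ⟨δ, hδ⟩ : ∃ δ, δ = (s + (H - ρ)) % H := ⟨_, rfl⟩
  have hδH : δ < H := by rw [hδ]; exact Nat.mod_lt _ (by omega)
  have hδs : δ ≤ s := by omega
  obtain ⟨m₀, hm₀⟩ : ∃ m₀, m₀ = s - δ := ⟨_, rfl⟩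
  have hm0s : m₀ + δ = s := by omega
  have hmod : m₀ % H = ρ := by
    have h1 : (m₀ + δ + (H - ρ)) % H = δ := by rw [hm0s, hδ]
    have h2 : (m₀ + (H - ρ) + δ) % H = (0 + δ) % H := by
      rw [show m₀ + (H - ρ) + δ = m₀ + δ + (H - ρ) by ring, h1, zero_add, Nat.mod_eq_of_lt hδH]
    have h3 : m₀ + (H - ρ) ≡ 0 [MOD H] := Nat.ModEq.add_right_cancel' δ h2
    have h4 : m₀ + (H - ρ) + ρ ≡ 0 + ρ [MOD H] := Nat.ModEq.add_right ρ h3
    have h5 : m₀ + (H - ρ) + ρ = m₀ + H := by omega
    rw [h5, zero_add] at h4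
    have h6 : (m₀ + H) % H = ρ % H := h4
    rw [Nat.add_mod_right, Nat.mod_eq_of_lt hρ] at h6
    exact h6
  have hlow : a < m₀ + H := by omega
  obtain ⟨k, hk⟩ : ∃ k, k = (t - m₀) / H := ⟨_, rfl⟩
  have hm0t : m₀ ≤ t := by omega
  have hk1 : k * H ≤ t - m₀ := by rw [hk]; exact Nat.div_mul_le_self _ _
  have hk2 : t - m₀ < (k + 1) * H := by
    have h1 := Nat.div_add_mod (t - m₀) H
    have h2 := Nat.mod_lt (t - m₀) (show 0 < H by omega)
    calc t - m₀ = H * ((t - m₀) / H) + (t - m₀) % H := h1.symm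
      _ < H * ((t - m₀) / H) + H := by omega
      _ = (k + 1) * H := by rw [hk]; ring
  have hpt : ∀ i, i ≤ k → lo ≤ cnt P (m₀ + i * H) (m₀ + i * H + H) ∧
      (cnt P (m₀ + i * H) (m₀ + i * H + H) : ℝ) ≤ hi := by
    intro i hi
    have h1 : i * H ≤ k * H := Nat.mul_le_mul_right H hi
    refine h _ (by omega) (by omega) ?_
    rw [Nat.add_mul_mod_self_right, hmod]
  have hH0 : (0 : ℝ) < H := by exact_mod_cast hH
  have e1 : (m₀ : ℝ) + δ = s := by exact_mod_cast hm0s
  have e2 : (δ : ℝ) < H := by exact_mod_cast hδH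
  have e3 : (0 : ℝ) ≤ δ := Nat.cast_nonneg _
  have e4 : (k : ℝ) * H ≤ t - m₀ := by
    have : ((k * H : ℕ) : ℝ) ≤ ((t - m₀ : ℕ) : ℝ) := by exact_mod_cast hk1
    rw [Nat.cast_sub hm0t] at this
    push_cast at this
    exact this
  have e5 : (t : ℝ) - m₀ < (k + 1) * H := by
    have : ((t - m₀ : ℕ) : ℝ) < (((k + 1) * H : ℕ) : ℝ) := by exact_mod_cast hk2
    rw [Nat.cast_sub hm0t] at this
    push_cast at this
    exact this
  constructor
  · -- upper bound
    have h1 : cnt P s t ≤ cnt P m₀ (m₀ + (k + 1) * H) := cnt_mono P (by omega) (by omega)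
    rw [cnt_tile] at h1
    have h2 : ((∑ i ∈ range (k + 1), cnt P (m₀ + i * H) (m₀ + i * H + H) : ℕ) : ℝ) ≤ (k + 1) * hi := by
      push_cast
      calc _ ≤ ∑ i ∈ range (k + 1), hi := sum_le_sum fun i hi' => (hpt i (by rw [mem_range] at hi'; omega)).2
        _ = (k + 1) * hi := by rw [sum_const, card_range, nsmul_eq_mul]; push_cast; ring
    have h3 : (cnt P s t : ℝ) ≤ (k + 1) * hi := le_trans (by exact_mod_cast h1) h2
    calc (cnt P s t : ℝ) * H ≤ (k + 1) * hi * H := mul_le_mul_of_nonneg_right h3 hH0.le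
      _ = ((k : ℝ) * H + H) * hi := by ring
      _ ≤ ((t : ℝ) - s + 2 * H) * hi := by
          apply mul_le_mul_of_nonneg_right _ hhi
          linarith
  · -- lower bound
    rcases Nat.lt_or_ge k 1 with hk0 | hk0
    · have : k = 0 := by omega
      subst this
      have h1 : (t : ℝ) - s - 2 * H ≤ 0 := by
        push_cast at e5
        linarith
      have h2 : ((t : ℝ) - s - 2 * H) * lo ≤ 0 := mul_nonpos_of_nonpos_of_nonneg h1 hlo
      have h3 : (0 : ℝ) ≤ cnt P s t * H := by positivity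
      linarith
    · obtain ⟨j, rfl⟩ : ∃ j, k = j + 1 := ⟨k - 1, by omega⟩
      have h0 : m₀ + H + j * H ≤ t := by
        have : (j + 1) * H = j * H + H := by ring
        omega
      have h1 : cnt P (m₀ + H) (m₀ + H + j * H) ≤ cnt P s t := cnt_mono P (by omega) h0
      rw [cnt_tile] at h1
      have h2 : (j : ℝ) * lo ≤ ((∑ i ∈ range j, cnt P (m₀ + H + i * H) (m₀ + H + i * H + H) : ℕ) : ℝ) := by
        push_cast
        calc (j : ℝ) * lo = ∑ i ∈ range j, lo := by rw [sum_const, card_range, nsmul_eq_mul]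
          _ ≤ _ := sum_le_sum fun i hi' => by
              have h3 := (hpt (i + 1) (by rw [mem_range] at hi'; omega)).1
              rw [show m₀ + (i + 1) * H = m₀ + H + i * H by ring] at h3
              exact h3
      have h3 : (j : ℝ) * lo ≤ cnt P s t := h2.trans (by exact_mod_cast h1)
      calc ((t : ℝ) - s - 2 * H) * lo ≤ ((j : ℝ) * H) * lo := by
            apply mul_le_mul_of_nonneg_right _ hlo
            push_cast at e5
            nlinarith
        _ = (j : ℝ) * lo * H := by ring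
        _ ≤ _ := mul_le_mul_of_nonneg_right h3 hH0.le

/-- few of the squares are near many exceptional starting points -/
theorem few_squares (E : Finset ℕ) {H N n₀ : ℕ} (hn : H + 4 < 2 * n₀) :
    (((Ioc n₀ N).filter (fun n => H ≤ (E.filter (fun m => (n - 1) ^ 2 < m + H ∧ m ≤ (n + 2) ^ 2)).card)).card) * H ≤
      4 * E.card := by
  set B := (Ioc n₀ N).filter (fun n => H ≤ (E.filter (fun m => (n - 1) ^ 2 < m + H ∧ m ≤ (n + 2) ^ 2)).card) with hB
  have h1 : B.card * H ≤ ∑ n ∈ B, (E.filter (fun m => (n - 1) ^ 2 < m + H ∧ m ≤ (n + 2) ^ 2)).card := by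
    rw [← smul_eq_mul, ← sum_const]
    refine sum_le_sum fun n hn => ?_
    rw [hB, mem_filter] at hn
    exact hn.2
  refine h1.trans ?_
  simp_rw [card_filter]
  rw [sum_comm]
  rw [mul_comm, ← smul_eq_mul, ← sum_const]
  refine sum_le_sum fun m hm => ?_
  rw [← card_filter]
  -- the `n` for a given `m`
  rcases (B.filter (fun n => (n - 1) ^ 2 < m + H ∧ m ≤ (n + 2) ^ 2)).eq_empty_or_nonempty with he | hne
  · rw [he]; simp
  · obtain ⟨a, ha⟩ : ∃ a, a = (B.filter (fun n => (n - 1) ^ 2 < m + H ∧ m ≤ (n + 2) ^ 2)).min' hne := ⟨_, rfl⟩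
    have hamem := min'_mem _ hne
    rw [← ha] at hamem
    have hsub : B.filter (fun n => (n - 1) ^ 2 < m + H ∧ m ≤ (n + 2) ^ 2) ⊆ Icc a (a + 3) := by
      intro n hn'
      have h2 : a ≤ n := by rw [ha]; exact min'_le _ _ hn'
      rw [mem_filter] at hn' hamem
      have h3 : n₀ < a := by
        have := hamem.1
        rw [hB, mem_filter, mem_Ioc] at this
        exact this.1.1
      rw [mem_Icc]
      refine ⟨h2, ?_⟩
      by_contra hc
      push Not at hc
      have h4 : a + 3 ≤ n - 1 := by omega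
      have h5 : (a + 3) ^ 2 ≤ (n - 1) ^ 2 := Nat.pow_le_pow_left h4 2
      have h6 := hn'.2.1
      have h7 := hamem.2.2
      nlinarith
    refine (card_le_card hsub).trans ?_
    rw [Nat.card_Icc]
    omega

end Run7.h946.SQ
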