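import Pool.Agent.Run7.h609.MK.BeaC
import Pool.Agent.Run7.h794.MK.All
import Pool.Agent.Run7.h946.SQ.Tile

/-!
# Primes in Bohr sets in all the subintervals of the gaps between squares

`main`: for all but `N / (log N)^U` of the `n ≤ N` every interval `(s, t]` between `(n - 1)²` and `(n + 2)²` of length at
least `n / (log n)^W` contains the expected number of primes `p` with `α p` in any box modulo one. This follows from the
theorem `bohr` of helper609 (project MK of helper794): if fewer than `H` of the starting points of the windows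
`(m, m + H]` near `n²` are exceptional, then there is a residue class modulo `H` without exceptional starting points, and
`(s, t]` is tiled by windows with starting points in this class.
-/

set_option autoImplicit false
set_option maxHeartbeats 4000000

namespace Run7.h946.SQ

open Finset
open Pool.Agent.H373R2.T7 (ev_L' ev_log')

/-- `p` is a prime with `α_j p` in `[u_j, v_j)` modulo one for all `j`. -/
def Bohr {r : ℕ} (α u v : Fin r → ℝ) (p : ℕ) : Prop := p.Prime ∧ ∀ j, Int.fract (α j * p - u j) < v j - u j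

/-- `1, α_1, …, α_r` are linearly independent over `ℚ`. -/
def Independent {r : ℕ} (α : Fin r → ℝ) : Prop := ∀ h : Fin r → ℤ, h ≠ 0 → ∀ b : ℤ, ∑ j, (h j : ℝ) * α j ≠ b

/-- Every interval `(s, t]` between `(n - 1)²` and `(n + 2)²` of length at least `n / (log n)^W` contains the expected
number of primes `p` with `α p` in any box modulo one, up to the relative error `ε`. -/
def Good {r : ℕ} (α : Fin r → ℝ) (W : ℕ) (ε : ℝ) (n : ℕ) : Prop :=
  ∀ s t : ℕ, (n - 1) ^ 2 ≤ s → s ≤ t → t ≤ (n + 2) ^ 2 → (n : ℝ) / Real.log n ^ W ≤ (t : ℝ) - s →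
    ∀ u v : Fin r → ℝ, (∀ j, u j ≤ v j) → (∀ j, v j ≤ u j + 1) →
      |(cnt (Bohr α u v) s t : ℝ) - (∏ j, (v j - u j)) * (((t : ℝ) - s) / (2 * Real.log n))| ≤
        ε * (((t : ℝ) - s) / (2 * Real.log n))

theorem Good.mono {r : ℕ} {α : Fin r → ℝ} {W : ℕ} {ε ε' : ℝ} {n : ℕ} (h : Good α W ε n) (he : ε ≤ ε') :
    Good α W ε' n := by
  intro s t h1 h2 h3 h4 u v h5 h6
  refine (h s t h1 h2 h3 h4 u v h5 h6).trans (mul_le_mul_of_nonneg_right he ?_)
  have h7 : (s : ℝ) ≤ t := by exact_mod_cast h2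
  have h8 : 0 ≤ Real.log n := Real.log_natCast_nonneg n
  have h9 : 0 ≤ (t : ℝ) - s := by linarith
  positivity

/-- a lower bound for the values of the small linear forms modulo one -/
theorem sep {r : ℕ} {α : Fin r → ℝ} (hα : Independent α) (D : ℕ) : ∃ c : ℝ, 0 < c ∧
    ∀ h : Fin r → ℤ, h ≠ 0 → (∀ j, |h j| ≤ D) → ∀ b : ℤ, c ≤ |∑ j, (h j : ℝ) * α j - b| := by
  classical
  set S : Finset (Fin r → ℤ) := (Fintype.piFinset (fun _ : Fin r => Icc (-(D : ℤ)) D)).filter (fun h => h ≠ 0) with hS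
  have hmem : ∀ h : Fin r → ℤ, h ≠ 0 → (∀ j, |h j| ≤ D) → h ∈ S := by
    intro h h0 h1
    rw [hS, mem_filter, Fintype.mem_piFinset]
    refine ⟨fun j => ?_, h0⟩
    rw [mem_Icc]
    exact abs_le.1 (h1 j)
  rcases S.eq_empty_or_nonempty with he | hne
  · refine ⟨1, one_pos, fun h h0 h1 => ?_⟩
    have := hmem h h0 h1
    rw [he] at this
    simp at this
  · obtain ⟨g, hg, hmin⟩ := exists_min_image S
      (fun h => |∑ j, (h j : ℝ) * α j - round (∑ j, (h j : ℝ) * α j)|) hne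
    refine ⟨|∑ j, (g j : ℝ) * α j - round (∑ j, (g j : ℝ) * α j)|, ?_, fun h h0 h1 b => ?_⟩
    · rw [abs_pos, sub_ne_zero]
      rw [hS, mem_filter] at hg
      exact hα g hg.2 _
    · exact (hmin h (hmem h h0 h1)).trans (round_le _ _)

/-- the final inequalities -/
theorem fin_ineq {T H L l w ε η c : ℝ} (hL : 0 < L) (hl : 0 < l) (hT : 0 ≤ T) (hH : 0 < H) (hw0 : 0 ≤ w) (hw1 : w ≤ 1)
    (hε0 : 0 < ε) (hε1 : ε ≤ 1) (hη : η = ε / 16) (hHT : 2 * H ≤ η * T) (hlL : l ≤ L) (hLl : (1 - η) * L ≤ l)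
    (hup : c * H ≤ (T + 2 * H) * ((w + ε / 4) * (H / L)))
    (hlow : (T - 2 * H) * max 0 ((w - ε / 4) * (H / L)) ≤ c * H) (hc : 0 ≤ c) :
    |c - w * (T / l)| ≤ ε * (T / l) := by
  have hη0 : 0 < η := by rw [hη]; positivity
  have hη1 : η ≤ 1 / 16 := by rw [hη]; linarith
  have hq : 0 ≤ T / l := by positivity
  have hTL : T / L ≤ T / l := div_le_div_of_nonneg_left hT hl hlL
  have hTL' : (1 - η) * (T / l) ≤ T / L := by
    rw [le_div_iff₀ hL]
    have h1 : (1 - η) * (T / l) * L = ((1 - η) * L) * (T / l) := by ring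
    rw [h1]
    calc ((1 - η) * L) * (T / l) ≤ l * (T / l) := mul_le_mul_of_nonneg_right hLl hq
      _ = T := by field_simp
  rw [abs_le]
  constructor
  · -- lower bound
    rcases le_or_gt w (ε / 4) with h1 | h1
    · have h2 : w * (T / l) ≤ ε * (T / l) := mul_le_mul_of_nonneg_right (by linarith) hq
      linarith
    · have h2 : 0 ≤ (w - ε / 4) * (H / L) := mul_nonneg (by linarith) (by positivity)
      rw [max_eq_right h2] at hlow
      have h3 : (T - 2 * H) * ((w - ε / 4) / L) ≤ c := by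
        have h4 : (T - 2 * H) * ((w - ε / 4) * (H / L)) = ((T - 2 * H) * ((w - ε / 4) / L)) * H := by ring
        rw [h4] at hlow
        exact le_of_mul_le_mul_right hlow hH
      have h5 : (1 - η) * T * ((w - ε / 4) / L) ≤ (T - 2 * H) * ((w - ε / 4) / L) :=
        mul_le_mul_of_nonneg_right (by linarith) (by
          have : 0 ≤ w - ε / 4 := by linarith
          positivity)
      have h6 : (1 - η) * T * ((w - ε / 4) / L) = (1 - η) * (w - ε / 4) * (T / L) := by ring
      have h7 : 0 ≤ (1 - η) * (w - ε / 4) := mul_nonneg (by linarith) (by linarith)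
      have h8 : (1 - η) * (w - ε / 4) * ((1 - η) * (T / l)) ≤ (1 - η) * (w - ε / 4) * (T / L) :=
        mul_le_mul_of_nonneg_left hTL' h7
      have h9 : (w - ε) ≤ (1 - η) * (w - ε / 4) * (1 - η) := by
        rw [hη]
        nlinarith [mul_nonneg hw0 hε0.le, mul_nonneg hε0.le hε0.le, mul_nonneg (mul_nonneg hε0.le hε0.le) hw0,
          mul_nonneg (mul_nonneg hε0.le hε0.le) hε0.le]
      have h10 : (w - ε) * (T / l) ≤ (1 - η) * (w - ε / 4) * (1 - η) * (T / l) := mul_le_mul_of_nonneg_right h9 hq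
      nlinarith
  · -- upper bound
    have h3 : c ≤ (T + 2 * H) * ((w + ε / 4) / L) := by
      have h4 : (T + 2 * H) * ((w + ε / 4) * (H / L)) = ((T + 2 * H) * ((w + ε / 4) / L)) * H := by ring
      rw [h4] at hup
      exact le_of_mul_le_mul_right hup hH
    have h5 : (T + 2 * H) * ((w + ε / 4) / L) ≤ (1 + η) * T * ((w + ε / 4) / L) :=
      mul_le_mul_of_nonneg_right (by linarith) (by positivity)
    have h6 : (1 + η) * T * ((w + ε / 4) / L) = (1 + η) * (w + ε / 4) * (T / L) := by ring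
    have h7 : 0 ≤ (1 + η) * (w + ε / 4) := by positivity
    have h8 : (1 + η) * (w + ε / 4) * (T / L) ≤ (1 + η) * (w + ε / 4) * (T / l) := mul_le_mul_of_nonneg_left hTL h7
    have h9 : (1 + η) * (w + ε / 4) ≤ w + ε := by
      rw [hη]
      nlinarith [mul_nonneg hw0 hε0.le, mul_nonneg hε0.le hε0.le]
    have h10 : (1 + η) * (w + ε / 4) * (T / l) ≤ (w + ε) * (T / l) := mul_le_mul_of_nonneg_right h9 hq
    nlinarith

/-- the conditions on `N` -/
theorem large (C K U : ℕ) (ε c : ℝ) (hε : 0 < ε) (hc : 0 < c) : ∃ N₀ : ℕ, ∀ N : ℕ, N₀ ≤ N → ∀ L : ℝ,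
    L = Real.log ((16 * N ^ 2 : ℕ) : ℝ) →
    16 ≤ N ∧ 128 ≤ L ∧ 64 / ε ≤ L ∧ Real.log N ≤ L ∧ L = Real.log 16 + 2 * Real.log N ∧
    8192 * L ^ (3 * (C + K + U + 3)) ≤ N ∧ (8 / c) * L ^ (C + K) ≤ N ∧
    3 + 2 * (U + 1) * Real.log L ≤ (ε / 16) * L := by
  obtain ⟨N1, h1⟩ := ev_log' (3 * (C + K + U + 3)) (8192 * 3 ^ (3 * (C + K + U + 3)))
  obtain ⟨N2, h2⟩ := ev_log' (C + K) (8 / c * 3 ^ (C + K))
  obtain ⟨N3, h3⟩ := ev_L' (max 128 (max (64 / ε) (((16 / ε) * (4 * (U + 1) + 3) + 1) ^ 2)))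
  refine ⟨max (max N1 N2) (max N3 16), fun N hN L hL => ?_⟩
  have hN1 : N1 ≤ N := by omega
  have hN2 : N2 ≤ N := by omega
  have hN3 : N3 ≤ N := by omega
  have hN16 : 16 ≤ N := by omega
  have a1 := h1 N hN1
  have a2 := h2 N hN2
  have a3 := h3 N hN3
  have hNr : (16 : ℝ) ≤ N := by exact_mod_cast hN16
  have hN0 : (0 : ℝ) < N := by linarith
  have hl0 : 0 ≤ Real.log N := Real.log_nonneg (by linarith)
  have e1 : L = Real.log 16 + 2 * Real.log N := by
    rw [hL]
    push_cast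
    rw [Real.log_mul (by norm_num) (by positivity), Real.log_pow]
    push_cast
    ring
  have h16 : Real.log 16 ≤ Real.log N := Real.log_le_log (by norm_num) hNr
  have h16' : 0 ≤ Real.log 16 := Real.log_nonneg (by norm_num)
  have hL3 : L ≤ 3 * Real.log N := by linarith
  have hlL : Real.log N ≤ L := by linarith
  have b1 : 128 ≤ L := le_trans (le_trans (le_max_left _ _) a3) hlL
  have b2 : 64 / ε ≤ L := le_trans (le_trans (le_trans (le_max_left _ _) (le_max_right _ _)) a3) hlL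
  have b3 : ((16 / ε) * (4 * (U + 1) + 3) + 1) ^ 2 ≤ L :=
    le_trans (le_trans (le_trans (le_max_right _ _) (le_max_right _ _)) a3) hlL
  have hL0 : 0 < L := by linarith
  have hs : √(N : ℝ) ≤ N := by
    rw [Real.sqrt_le_left hN0.le]
    nlinarith
  have hpow : ∀ k : ℕ, L ^ k ≤ 3 ^ k * Real.log N ^ k := by
    intro k
    rw [← mul_pow]
    exact pow_le_pow_left₀ hL0.le hL3 k
  refine ⟨hN16, b1, b2, hlL, e1, ?_, ?_, ?_⟩
  · calc 8192 * L ^ (3 * (C + K + U + 3)) ≤ 8192 * (3 ^ (3 * (C + K + U + 3)) * Real.log N ^ (3 * (C + K + U + 3))) :=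
          mul_le_mul_of_nonneg_left (hpow _) (by norm_num)
      _ = 8192 * 3 ^ (3 * (C + K + U + 3)) * Real.log N ^ (3 * (C + K + U + 3)) := by ring
      _ ≤ √N := a1
      _ ≤ N := hs
  · calc (8 / c) * L ^ (C + K) ≤ (8 / c) * (3 ^ (C + K) * Real.log N ^ (C + K)) :=
          mul_le_mul_of_nonneg_left (hpow _) (by positivity)
      _ = 8 / c * 3 ^ (C + K) * Real.log N ^ (C + K) := by ring
      _ ≤ √N := a2
      _ ≤ N := hs
  · -- the logarithm of `L`
    set q : ℝ := √L with hq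
    have hq0 : 0 < q := Real.sqrt_pos.2 hL0
    have hqq : q * q = L := Real.mul_self_sqrt hL0.le
    have hlog : Real.log L ≤ 2 * q := by
      have h4 : Real.log L = 2 * Real.log q := by
        rw [← hqq, Real.log_mul hq0.ne' hq0.ne']
        ring
      have h5 : Real.log q ≤ q - 1 := Real.log_le_sub_one_of_pos hq0
      linarith
    have hqb : (16 / ε) * (4 * (U + 1) + 3) + 1 ≤ q := by
      rw [hq]
      apply Real.le_sqrt_of_sq_le
      exact b3
    have hU0 : (0 : ℝ) ≤ U := Nat.cast_nonneg _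
    have hq1 : 1 ≤ q := by
      have : 0 ≤ (16 / ε) * (4 * ((U : ℝ) + 1) + 3) := by positivity
      linarith
    have h6 : (4 * ((U : ℝ) + 1) + 3) ≤ (ε / 16) * q := by
      have h7 : (ε / 16) * ((16 / ε) * (4 * ((U : ℝ) + 1) + 3)) ≤ (ε / 16) * q :=
        mul_le_mul_of_nonneg_left (by linarith) (by positivity)
      have h8 : (ε / 16) * ((16 / ε) * (4 * ((U : ℝ) + 1) + 3)) = 4 * ((U : ℝ) + 1) + 3 := by
        field_simp
      linarith
    have h9 : (4 * ((U : ℝ) + 1) + 3) * q ≤ (ε / 16) * L := by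
      rw [← hqq]
      calc _ ≤ (ε / 16) * q * q := mul_le_mul_of_nonneg_right h6 hq0.le
        _ = _ := by ring
    have h10 : 2 * ((U : ℝ) + 1) * Real.log L ≤ 4 * ((U : ℝ) + 1) * q := by
      have : 2 * ((U : ℝ) + 1) * Real.log L ≤ 2 * ((U : ℝ) + 1) * (2 * q) :=
        mul_le_mul_of_nonneg_left hlog (by positivity)
      linarith
    nlinarith

open Classical in
/-- **Primes in Bohr sets between squares**: for all but `N / (log N)^U` of the `n ≤ N` all the intervals between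
`(n - 1)²` and `(n + 2)²` of length at least `n / (log n)^W` contain the expected number of primes of every Bohr set. -/
theorem main {r : ℕ} {α : Fin r → ℝ} (hα : Independent α) (W U : ℕ) {ε : ℝ} (hε : 0 < ε) :
    ∃ N₀ : ℕ, ∀ N : ℕ, N₀ ≤ N →
      (((Icc 1 N).filter (fun n => ¬ Good α W ε n)).card : ℝ) ≤ N / Real.log N ^ U := by
  wlog hε1 : ε ≤ 1 generalizing ε
  · obtain ⟨N₀, h⟩ := this (ε := 1) one_pos le_rfl
    refine ⟨N₀, fun N hN => le_trans ?_ (h N hN)⟩
    apply Nat.cast_le.2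
    apply card_le_card
    intro n hn
    rw [mem_filter] at hn ⊢
    exact ⟨hn.1, fun hg => hn.2 (hg.mono (not_le.1 hε1).le)⟩
  set K : ℕ := U + W + 4 with hK
  set U' : ℕ := U + K + 2 with hU'
  obtain ⟨D, C, N1, hb⟩ := Pool.Agent.Run7.h609.MK.bohr Pool.Agent.Run7.h794.MK.all_all r U' (ε / 4) (by positivity)
  obtain ⟨c, hc, hsep⟩ := sep hα D
  obtain ⟨N2, hlarge⟩ := large C K U ε c hε hc
  refine ⟨max N1 N2, fun N hN => ?_⟩
  have hN1 : N1 ≤ N := le_trans (le_max_left _ _) hN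
  obtain ⟨L, hL⟩ : ∃ L, L = Real.log ((16 * N ^ 2 : ℕ) : ℝ) := ⟨_, rfl⟩
  obtain ⟨hN16, hL128, hLε, hlNL, hLe, hbig, hbigc, hlogL⟩ := hlarge N (le_trans (le_max_right _ _) hN) L hL
  have hNr : (16 : ℝ) ≤ N := by exact_mod_cast hN16
  have hN0 : (0 : ℝ) < N := by linarith
  have hL0 : 0 < L := by linarith
  have hL1 : 1 ≤ L := by linarith
  have hlN0 : 0 < Real.log N := Real.log_pos (by linarith)
  -- the length of the windows
  obtain ⟨H, hH⟩ : ∃ H, H = ⌊(N : ℝ) / L ^ K⌋₊ := ⟨_, rfl⟩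
  have hbigK : 8192 * L ^ (K + U + 3) ≤ N := by
    refine le_trans (mul_le_mul_of_nonneg_left (pow_le_pow_right₀ hL1 (by omega)) (by norm_num)) hbig
  have hNK : 8192 ≤ (N : ℝ) / L ^ K := by
    rw [le_div_iff₀ (by positivity)]
    refine le_trans (mul_le_mul_of_nonneg_left (pow_le_pow_right₀ hL1 (by omega)) (by norm_num)) hbigK
  have hHle : (H : ℝ) ≤ N / L ^ K := by rw [hH]; exact Nat.floor_le (by positivity)
  have hHge : (N : ℝ) / L ^ K / 2 ≤ H := by
    have h1 := Nat.lt_floor_add_one ((N : ℝ) / L ^ K)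
    rw [← hH] at h1
    linarith
  have hH1 : (1 : ℝ) ≤ H := by linarith
  have hH1' : 1 ≤ H := by exact_mod_cast hH1
  have hH0 : (0 : ℝ) < H := by linarith
  -- the small `n`
  obtain ⟨n₀, hn₀⟩ : ∃ n₀, n₀ = ⌊(N : ℝ) / L ^ (U + 1)⌋₊ := ⟨_, rfl⟩
  have hn₀le : (n₀ : ℝ) ≤ N / L ^ (U + 1) := by rw [hn₀]; exact Nat.floor_le (by positivity)
  have hn₀lt : (N : ℝ) / L ^ (U + 1) < n₀ + 1 := by rw [hn₀]; exact Nat.lt_floor_add_one _
  have hratio : (N : ℝ) / L ^ K * 128 ≤ N / L ^ (U + 1) := by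
    have e0 : L ^ K = L ^ (U + 1) * L ^ (W + 3) := by
      rw [← pow_add, hK]
      congr 1
      ring
    have h1 : (N : ℝ) / L ^ (U + 1) = N / L ^ K * L ^ (W + 3) := by
      rw [e0]
      have g1 : L ^ (U + 1) ≠ 0 := (by positivity : (0 : ℝ) < L ^ (U + 1)).ne'
      have g2 : L ^ (W + 3) ≠ 0 := (by positivity : (0 : ℝ) < L ^ (W + 3)).ne'
      generalize L ^ (U + 1) = a at g1 ⊢
      generalize L ^ (W + 3) = b at g2 ⊢
      field_simp
    rw [h1]
    apply mul_le_mul_of_nonneg_left _ (by positivity)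
    calc (128 : ℝ) ≤ L := hL128
      _ = L ^ 1 := (pow_one L).symm
      _ ≤ L ^ (W + 3) := pow_le_pow_right₀ hL1 (by omega)
  have hHn₀ : H + 4 < 2 * n₀ ∧ H + 2 ≤ n₀ := by
    have h1 : (H : ℝ) + 3 ≤ n₀ := by linarith
    have h2 : H + 3 ≤ n₀ := by exact_mod_cast h1
    omega
  -- the exceptional windows
  obtain ⟨X, hX⟩ : ∃ X, X = 16 * N ^ 2 := ⟨_, rfl⟩
  have hXr : (X : ℝ) = 16 * (N : ℝ) ^ 2 := by rw [hX]; push_cast; ring
  have hLX : Real.log X = L := by rw [hL, hX]
  have hX1 : N1 ≤ X := by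
    rw [hX]
    nlinarith
  have c1 : (X : ℝ) ^ (1 / 3 : ℝ) * Real.log X ^ C ≤ H := by
    refine le_trans ?_ hHge
    rw [hLX]
    have h0 : 0 ≤ (N : ℝ) / L ^ K / 2 := by positivity
    have hX0 : (0 : ℝ) ≤ X := Nat.cast_nonneg _
    have hlc : 0 ≤ (X : ℝ) ^ (1 / 3 : ℝ) * L ^ C := by positivity
    refine (pow_le_pow_iff_left₀ hlc h0 (by norm_num : (3 : ℕ) ≠ 0)).1 ?_
    have hx3 : ((X : ℝ) ^ (1 / 3 : ℝ)) ^ 3 = X := by
      rw [← Real.rpow_natCast, ← Real.rpow_mul hX0]
      norm_num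
    rw [mul_pow, hx3, hXr]
    have h1 : 8192 * L ^ (3 * (C + K)) ≤ N :=
      le_trans (mul_le_mul_of_nonneg_left (pow_le_pow_right₀ hL1 (by omega)) (by norm_num)) hbig
    have h2 : L ^ (3 * (C + K)) = (L ^ C) ^ 3 * (L ^ K) ^ 3 := by
      rw [← pow_mul, ← pow_mul, ← pow_add]
      congr 1
      ring
    rw [h2] at h1
    have g1 : 0 < L ^ C := by positivity
    have g2 : 0 < L ^ K := by positivity
    generalize L ^ C = a at g1 h1 ⊢
    generalize L ^ K = b at g2 h1 ⊢
    have h3 : ((N : ℝ) / b / 2) ^ 3 = (N : ℝ) ^ 3 / (8 * b ^ 3) := by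
      field_simp
      ring
    rw [h3, le_div_iff₀ (by positivity)]
    have h4 : (N : ℝ) ^ 2 * (8192 * (a ^ 3 * b ^ 3)) ≤ (N : ℝ) ^ 2 * N :=
      mul_le_mul_of_nonneg_left h1 (by positivity)
    have h5 : 0 ≤ (N : ℝ) ^ 2 * (a ^ 3 * b ^ 3) := by positivity
    nlinarith
  have c2 : (H : ℝ) * Real.log X ^ C ≤ X := by
    rw [hLX, hXr]
    have h1 : L ^ C ≤ N := by
      have h2 : 8192 * L ^ C ≤ N :=
        le_trans (mul_le_mul_of_nonneg_left (pow_le_pow_right₀ hL1 (by omega)) (by norm_num)) hbig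
      have h3 : 0 ≤ L ^ C := by positivity
      linarith
    have h2 : (H : ℝ) ≤ N := by
      refine hHle.trans (div_le_self hN0.le (one_le_pow₀ hL1))
    calc (H : ℝ) * L ^ C ≤ N * N := mul_le_mul h2 h1 (by positivity) hN0.le
      _ ≤ 16 * (N : ℝ) ^ 2 := by nlinarith
  have c3 : ∀ h : Fin r → ℤ, h ≠ 0 → (∀ j, |h j| ≤ D) → ∀ b : ℤ, Real.log X ^ C / H < |∑ j, (h j : ℝ) * α j - b| := by
    intro h h0 h1 b
    refine lt_of_lt_of_le ?_ (hsep h h0 h1 b)
    rw [hLX, div_lt_iff₀ hH0]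
    have h2 : L ^ C ≤ c / 4 * ((N : ℝ) / L ^ K / 2) := by
      have h3 : c / 4 * ((N : ℝ) / L ^ K / 2) = (c / 8 * N) / L ^ K := by ring
      rw [h3, le_div_iff₀ (by positivity), ← pow_add]
      have h4 : (8 / c) * L ^ (C + K) * (c / 8) ≤ N * (c / 8) := mul_le_mul_of_nonneg_right hbigc (by positivity)
      have h5 : (8 / c) * L ^ (C + K) * (c / 8) = L ^ (C + K) := by field_simp
      linarith
    have h6 : c / 4 * ((N : ℝ) / L ^ K / 2) ≤ c / 4 * H := mul_le_mul_of_nonneg_left hHge (by positivity)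
    have h7 : 0 < c * H := by positivity
    linarith
  obtain ⟨E, hE, hgood⟩ := hb X hX1 H c1 c2 α c3
  rw [hLX] at hE
  set B : Finset ℕ := (Ioc n₀ N).filter
    (fun n => H ≤ (E.filter (fun m => (n - 1) ^ 2 < m + H ∧ m ≤ (n + 2) ^ 2)).card) with hB
  have hBcard : B.card * H ≤ 4 * E.card := few_squares E hHn₀.1
  -- the good `n`
  have hmain : ∀ n, n₀ < n → n ≤ N → n ∉ B → Good α W ε n := by
    intro n hn hnN hnB s t hs hst ht hlen u v hu hv
    have hcard : (E.filter (fun m => (n - 1) ^ 2 < m + H ∧ m ≤ (n + 2) ^ 2)).card < H := by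
      by_contra hcon
      push Not at hcon
      exact hnB (mem_filter.2 ⟨mem_Ioc.2 ⟨hn, hnN⟩, hcon⟩)
    obtain ⟨ρ, hρ, hres⟩ := exists_residue _ hcard
    have hn1 : n₀ + 1 ≤ n := hn
    have hnr : (n₀ : ℝ) + 1 ≤ n := by exact_mod_cast hn1
    have hnN' : (n : ℝ) ≤ N := by exact_mod_cast hnN
    have hnlow : (N : ℝ) / L ^ (U + 1) < n := by linarith
    have hn0 : (0 : ℝ) < n := lt_of_le_of_lt (by positivity) hnlow
    have hn4 : 4 ≤ n := by omega
    have hn4r : (4 : ℝ) ≤ n := by exact_mod_cast hn4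
    have hHa : H ≤ (n - 1) ^ 2 := by
      have h1 : H ≤ n - 1 := by omega
      calc H ≤ n - 1 := h1
        _ ≤ (n - 1) ^ 2 := Nat.le_self_pow (by norm_num) _
    have hbX : (n + 2) ^ 2 ≤ X := by
      have h1 : n + 2 ≤ 4 * N := by omega
      calc (n + 2) ^ 2 ≤ (4 * N) ^ 2 := Nat.pow_le_pow_left h1 2
        _ = X := by rw [hX]; ring
    set w : ℝ := ∏ j, (v j - u j) with hw
    have hw0 : 0 ≤ w := prod_nonneg fun j _ => by linarith [hu j]
    have hw1 : w ≤ 1 := by
      rw [hw]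
      exact prod_le_one (fun j _ => by linarith [hu j]) (fun j _ => by linarith [hv j])
    have hHL : 0 < (H : ℝ) / L := by positivity
    have hpt : ∀ m, (n - 1) ^ 2 < m + H → m ≤ (n + 2) ^ 2 → m % H = ρ →
        max 0 ((w - ε / 4) * (H / L)) ≤ cnt (Bohr α u v) m (m + H) ∧
          (cnt (Bohr α u v) m (m + H) : ℝ) ≤ (w + ε / 4) * (H / L) := by
      intro m h1 h2 h3
      have hmE : m ∉ E := fun hm => hres m (mem_filter.2 ⟨hm, h1, h2⟩) h3
      have hm1 : 1 ≤ m := by omega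
      have h4 := hgood m hm1 (h2.trans hbX) hmE u v hu hv
      rw [hLX] at h4
      have h5 : (cnt (Bohr α u v) m (m + H) : ℝ) = (((Ioc m (m + H)).filter (fun p : ℕ => p.Prime ∧
          ∀ j, Int.fract (α j * p - u j) < v j - u j)).card : ℝ) := by
        unfold cnt Bohr
        congr!
      rw [← h5, ← hw, abs_le] at h4
      have h6 : (w - ε / 4) * (H / L) = w * (H / L) - ε / 4 * (H / L) := by ring
      have h7 : (w + ε / 4) * (H / L) = w * (H / L) + ε / 4 * (H / L) := by ring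
      rw [h6, h7]
      refine ⟨max_le (Nat.cast_nonneg _) (by linarith), by linarith⟩
    obtain ⟨hup, hlow⟩ := tile (Bohr α u v) hH1' hHa hρ (le_max_left _ _)
      (show 0 ≤ (w + ε / 4) * (H / L) by positivity) hpt hs hst ht
    have hT : (0 : ℝ) ≤ (t : ℝ) - s := by
      have : (s : ℝ) ≤ t := by exact_mod_cast hst
      linarith
    have hln0 : 0 < Real.log n := Real.log_pos (by linarith)
    have hlnN : Real.log n ≤ Real.log N := Real.log_le_log hn0 hnN'
    have hl16 : 0 ≤ Real.log 16 := Real.log_nonneg (by norm_num)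
    have hl16' : Real.log 16 ≤ 3 := by
      have h1 : Real.log 16 = 4 * Real.log 2 := by
        rw [show (16 : ℝ) = 2 ^ 4 by norm_num, Real.log_pow]
        norm_num
      rw [h1]
      linarith [Real.log_two_lt_d9]
    refine fin_ineq (η := ε / 16) hL0 (by linarith : 0 < 2 * Real.log n) hT hH0 hw0 hw1 hε hε1 rfl ?_ ?_ ?_ hup hlow
      (Nat.cast_nonneg _)
    · -- the length of the windows is small
      have h1 : (N : ℝ) / L ^ (U + 1) / L ^ W ≤ (t : ℝ) - s := by
        refine le_trans ?_ hlen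
        have h2 : Real.log n ^ W ≤ L ^ W := pow_le_pow_left₀ hln0.le (by linarith) W
        calc (N : ℝ) / L ^ (U + 1) / L ^ W ≤ n / L ^ W := div_le_div_of_nonneg_right hnlow.le (by positivity)
          _ ≤ n / Real.log n ^ W := div_le_div_of_nonneg_left hn0.le (by positivity) h2
      have h3 : (N : ℝ) / L ^ K = (N : ℝ) / L ^ (U + 1) / L ^ W / L ^ 3 := by
        rw [div_div, div_div, ← pow_add, ← pow_add, hK]
        congr 2
        ring
      have h4 : (H : ℝ) ≤ ((t : ℝ) - s) / L ^ 3 := by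
        refine hHle.trans ?_
        rw [h3]
        exact div_le_div_of_nonneg_right h1 (by positivity)
      have h5 : ((t : ℝ) - s) / L ^ 3 ≤ ((t : ℝ) - s) / L := by
        apply div_le_div_of_nonneg_left hT hL0
        calc L = L ^ 1 := (pow_one L).symm
          _ ≤ L ^ 3 := pow_le_pow_right₀ hL1 (by norm_num)
      have h6 : ((t : ℝ) - s) / L ≤ (ε / 64) * ((t : ℝ) - s) := by
        rw [div_le_iff₀ hL0]
        have h7 : 1 ≤ ε / 64 * L := by
          have h8 : ε / 64 * (64 / ε) ≤ ε / 64 * L := mul_le_mul_of_nonneg_left hLε (by positivity)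
          have h9 : ε / 64 * (64 / ε) = 1 := by field_simp
          linarith
        nlinarith [mul_le_mul_of_nonneg_left h7 hT]
      have h8 : 0 ≤ ε * ((t : ℝ) - s) := mul_nonneg hε.le hT
      linarith
    · linarith
    · -- `2 log n` is almost `L`
      have h1 : Real.log ((N : ℝ) / L ^ (U + 1)) ≤ Real.log n := Real.log_le_log (by positivity) hnlow.le
      rw [Real.log_div hN0.ne' (by positivity), Real.log_pow] at h1
      push_cast at h1
      nlinarith
  -- the number of the bad `n`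
  have hsub : (Icc 1 N).filter (fun n => ¬ Good α W ε n) ⊆ Icc 1 n₀ ∪ B := by
    intro n hn
    rw [mem_filter, mem_Icc] at hn
    rw [mem_union, mem_Icc]
    by_cases h1 : n ≤ n₀
    · exact Or.inl ⟨hn.1.1, h1⟩
    · right
      by_contra h2
      exact hn.2 (hmain n (by omega) hn.1.2 h2)
  have h1 : (((Icc 1 N).filter (fun n => ¬ Good α W ε n)).card : ℝ) ≤ n₀ + B.card := by
    have h2 := (card_le_card hsub).trans (card_union_le _ _)
    rw [Nat.card_Icc] at h2
    have h3 : ((Icc 1 N).filter (fun n => ¬ Good α W ε n)).card ≤ n₀ + B.card := by omega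
    exact_mod_cast h3
  have h2 : (B.card : ℝ) ≤ 128 * N / L ^ (U + 2) := by
    have h3 : (B.card : ℝ) * H ≤ 4 * E.card := by exact_mod_cast hBcard
    have h4 : (B.card : ℝ) * ((N : ℝ) / L ^ K / 2) ≤ 4 * (X / L ^ U') := by
      calc (B.card : ℝ) * ((N : ℝ) / L ^ K / 2) ≤ B.card * H := mul_le_mul_of_nonneg_left hHge (Nat.cast_nonneg _)
        _ ≤ 4 * E.card := h3
        _ ≤ 4 * (X / L ^ U') := by linarith
    have h5 : 4 * ((X : ℝ) / L ^ U') = (128 * N / L ^ (U + 2)) * ((N : ℝ) / L ^ K / 2) := by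
      have e0 : L ^ U' = L ^ (U + 2) * L ^ K := by
        rw [← pow_add, hU']
        congr 1
        ring
      rw [hXr, e0]
      have g1 : L ^ (U + 2) ≠ 0 := (by positivity : (0 : ℝ) < L ^ (U + 2)).ne'
      have g2 : L ^ K ≠ 0 := (by positivity : (0 : ℝ) < L ^ K).ne'
      generalize L ^ (U + 2) = a at g1 ⊢
      generalize L ^ K = b at g2 ⊢
      field_simp
      ring
    rw [h5] at h4
    exact le_of_mul_le_mul_right h4 (by positivity)
  have h3 : (N : ℝ) / L ^ (U + 1) + 128 * N / L ^ (U + 2) ≤ N / L ^ U := by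
    have e1 : (N : ℝ) / L ^ (U + 1) = N / L ^ U * (1 / L) := by rw [pow_succ]; field_simp
    have e2 : 128 * (N : ℝ) / L ^ (U + 2) = N / L ^ U * (128 / L ^ 2) := by rw [pow_add]; field_simp
    rw [e1, e2, ← mul_add]
    have h4 : 1 / L + 128 / L ^ 2 ≤ 1 := by
      have h5 : 1 / L ≤ 1 / 128 := div_le_div_of_nonneg_left (by norm_num) (by norm_num) hL128
      have h6 : 128 / L ^ 2 ≤ 128 / (128 * 128) := by
        apply div_le_div_of_nonneg_left (by norm_num) (by norm_num)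
        nlinarith
      linarith
    calc (N : ℝ) / L ^ U * (1 / L + 128 / L ^ 2) ≤ N / L ^ U * 1 := mul_le_mul_of_nonneg_left h4 (by positivity)
      _ = _ := mul_one _
  have h4 : (N : ℝ) / L ^ U ≤ N / Real.log N ^ U := by
    apply div_le_div_of_nonneg_left hN0.le (by positivity)
    exact pow_le_pow_left₀ hlN0.le hlNL U
  linarith

end Run7.h946.SQ
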