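import Pool.Agent.Run7.h946.SQ.Core
import Pool.Agent.Run7.h469.Tm

/-!
# One exceptional set; multiples, integer parts of square roots, and lacunary sequences
-/

set_option autoImplicit false
set_option maxHeartbeats 4000000

namespace Run7.h946.SQ

open Finset Filter MeasureTheory
open Run7.h469.GA (Thin)

open Classical in
/-- The set `E` is thin: for every `A` it has at most `X / (log X)^A` elements up to `X`, for all large `X`. -/
def IsThin (E : Set ℕ) : Prop := ∀ A : ℕ, ∃ X₀ : ℕ, ∀ X : ℕ, X₀ ≤ X →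
  (((Icc 1 X).filter (fun n => n ∈ E)).card : ℝ) ≤ X / Real.log X ^ A

theorem thin_good {r : ℕ} {α : Fin r → ℝ} (hα : Independent α) (W : ℕ) {ε : ℝ} (hε : 0 < ε) : Thin (Good α W ε) := by
  intro A
  obtain ⟨N₀, h⟩ := main hα W A hε
  refine ⟨N₀, fun N hN => ?_⟩
  convert h N hN

theorem thin_mono {P Q : ℕ → Prop} (h : ∀ n, P n → Q n) (hP : Thin P) : Thin Q := by
  classical
  intro A
  obtain ⟨X₀, h1⟩ := hP A
  refine ⟨X₀, fun X hX => le_trans ?_ (h1 X hX)⟩
  apply Nat.cast_le.2
  apply card_le_card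
  intro n hn
  rw [mem_filter] at hn ⊢
  exact ⟨hn.1, fun hg => hn.2 (h n hg)⟩

open Classical in
/-- one exceptional set for a decreasing sequence of properties -/
theorem diag (P : ℕ → ℕ → Prop) (hmono : ∀ k n, P (k + 1) n → P k n) (hP : ∀ k, Thin (P k)) :
    ∃ E : Set ℕ, IsThin E ∧ ∀ k, ∃ n₀, ∀ n, n₀ ≤ n → n ∉ E → P k n := by
  have hmono' : ∀ j k n, j ≤ k → P k n → P j n := by
    intro j k n hjk
    induction hjk with
    | refl => exact id
    | step _ ih => exact fun h => ih (hmono _ _ h)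
  choose X hX using fun k => hP k k
  -- increasing thresholds
  let Y : ℕ → ℕ := fun k => k + ∑ i ∈ range (k + 1), X i
  have hYmono : StrictMono Y := by
    apply strictMono_nat_of_lt_succ
    intro k
    show k + ∑ i ∈ range (k + 1), X i < k + 1 + ∑ i ∈ range (k + 1 + 1), X i
    rw [sum_range_succ _ (k + 1)]
    omega
  have hXY : ∀ k, X k ≤ Y k := by
    intro k
    show X k ≤ k + ∑ i ∈ range (k + 1), X i
    have := single_le_sum (s := range (k + 1)) (f := X) (fun i _ => Nat.zero_le _) (mem_range.2 (Nat.lt_succ_self k))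
    omega
  refine ⟨{n | ∃ k, Y k ≤ n ∧ n < Y (k + 1) ∧ ¬ P k n}, ?_, ?_⟩
  · intro A
    refine ⟨max (Y A) 3, fun N hN => ?_⟩
    have hN3 : (3 : ℝ) ≤ N := by exact_mod_cast (le_trans (le_max_right _ _) hN)
    have hYN : Y A ≤ N := le_trans (le_max_left _ _) hN
    -- the index of `N`
    obtain ⟨k, hk1, hk2⟩ : ∃ k, Y k ≤ N ∧ N < Y (k + 1) := by
      have h1 : ∃ k, N < Y k := ⟨N + 1, by
        have := hYmono.id_le (N + 1)
        exact lt_of_lt_of_le (Nat.lt_succ_self N) this⟩
      have h2 := Nat.find_spec h1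
      have h3 : Nat.find h1 ≠ 0 := by
        intro h0
        rw [h0] at h2
        have : Y 0 ≤ Y A := hYmono.monotone (Nat.zero_le A)
        omega
      obtain ⟨k, hk⟩ := Nat.exists_eq_succ_of_ne_zero h3
      refine ⟨k, ?_, by rw [← Nat.succ_eq_add_one, ← hk]; exact h2⟩
      have := Nat.find_min h1 (m := k) (by omega)
      omega
    have hAk : A ≤ k := by
      by_contra hc
      have : Y (k + 1) ≤ Y A := hYmono.monotone (by omega)
      omega
    have h1 : ((Icc 1 N).filter (fun n => n ∈ {n | ∃ k, Y k ≤ n ∧ n < Y (k + 1) ∧ ¬ P k n})) ⊆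
        (Icc 1 N).filter (fun n => ¬ P k n) := by
      intro n hn
      rw [mem_filter] at hn ⊢
      refine ⟨hn.1, ?_⟩
      obtain ⟨j, hj1, hj2, hj3⟩ := hn.2
      have hnN : n ≤ N := (mem_Icc.1 hn.1).2
      have hjk : j ≤ k := by
        by_contra hc
        have : Y (k + 1) ≤ Y j := hYmono.monotone (by omega)
        omega
      exact fun h => hj3 (hmono' j k n hjk h)
    have h2 := hX k N ((hXY k).trans hk1)
    have hlog : 1 ≤ Real.log N := by
      rw [Real.le_log_iff_exp_le (by linarith)]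
      have := Real.exp_one_lt_d9
      linarith
    calc (((Icc 1 N).filter (fun n => n ∈ {n | ∃ k, Y k ≤ n ∧ n < Y (k + 1) ∧ ¬ P k n})).card : ℝ)
        ≤ ((Icc 1 N).filter (fun n => ¬ P k n)).card := by exact_mod_cast card_le_card h1
      _ ≤ N / Real.log N ^ k := by convert h2
      _ ≤ N / Real.log N ^ A := by
          apply div_le_div_of_nonneg_left (by linarith) (by positivity)
          exact pow_le_pow_right₀ hlog hAk
  · intro k
    refine ⟨Y k, fun n hn hnE => ?_⟩
    obtain ⟨j, hj1, hj2⟩ : ∃ j, Y j ≤ n ∧ n < Y (j + 1) := by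
      have h1 : ∃ j, n < Y j := ⟨n + 1, by
        have := hYmono.id_le (n + 1)
        exact lt_of_lt_of_le (Nat.lt_succ_self n) this⟩
      have h2 := Nat.find_spec h1
      have h3 : Nat.find h1 ≠ 0 := by
        intro h0
        rw [h0] at h2
        have : Y 0 ≤ Y k := hYmono.monotone (Nat.zero_le k)
        omega
      obtain ⟨j, hj⟩ := Nat.exists_eq_succ_of_ne_zero h3
      refine ⟨j, ?_, by rw [← Nat.succ_eq_add_one, ← hj]; exact h2⟩
      have := Nat.find_min h1 (m := j) (by omega)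
      omega
    have hkj : k ≤ j := by
      by_contra hc
      have : Y (j + 1) ≤ Y k := hYmono.monotone (by omega)
      omega
    have h3 : P j n := by
      by_contra hc
      exact hnE ⟨j, hj1, hj2, hc⟩
    exact hmono' k j n hkj h3

theorem IsThin.thin {E : Set ℕ} (h : IsThin E) : Thin (fun n => n ∉ E) := by
  classical
  intro A
  obtain ⟨X₀, h1⟩ := h A
  refine ⟨X₀, fun X hX => ?_⟩
  refine le_trans (le_of_eq ?_) (h1 X hX)
  congr 2
  ext n
  simp only [mem_filter, not_not]

theorem IsThin.mono {E F : Set ℕ} (h : IsThin F) (hEF : E ⊆ F) : IsThin E := by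
  classical
  intro A
  obtain ⟨X₀, h1⟩ := h A
  refine ⟨X₀, fun X hX => le_trans ?_ (h1 X hX)⟩
  apply Nat.cast_le.2
  apply card_le_card
  intro n hn
  rw [mem_filter] at hn ⊢
  exact ⟨hn.1, hEF hn.2⟩

/-- longer intervals -/
theorem Good.mono_W {r : ℕ} {α : Fin r → ℝ} {W W' : ℕ} {ε : ℝ} {n : ℕ} (h : Good α W' ε n) (hW : W ≤ W') (hn : 3 ≤ n) :
    Good α W ε n := by
  intro s t h1 h2 h3 h4 u v h5 h6
  refine h s t h1 h2 h3 (le_trans ?_ h4) u v h5 h6
  have hn3 : (3 : ℝ) ≤ n := by exact_mod_cast hn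
  have hlog : 1 ≤ Real.log n := by
    rw [Real.le_log_iff_exp_le (by linarith)]
    have := Real.exp_one_lt_d9
    linarith
  apply div_le_div_of_nonneg_left (by linarith) (by positivity)
  exact pow_le_pow_right₀ hlog hW

/-- **The exceptional set.** -/
theorem exceptional {r : ℕ} {α : Fin r → ℝ} (hα : Independent α) : ∃ E : Set ℕ, IsThin E ∧
    ∀ (W : ℕ) (ε : ℝ), 0 < ε → ∃ n₀, ∀ n, n₀ ≤ n → n ∉ E → Good α W ε n := by
  classical
  obtain ⟨E, hE, h⟩ := diag (fun k n => 3 ≤ n → Good α k (1 / ((k : ℝ) + 1)) n)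
    (fun k n hg hn => (Good.mono_W (hg hn) (Nat.le_succ k) hn).mono (by
      push_cast
      apply one_div_le_one_div_of_le (by positivity)
      linarith))
    (fun k => thin_mono (fun n hg _ => hg) (thin_good hα k (ε := 1 / ((k : ℝ) + 1)) (by positivity)))
  refine ⟨E, hE, fun W ε hε => ?_⟩
  obtain ⟨k, hk⟩ := exists_nat_gt (1 / ε)
  obtain ⟨n₀, h1⟩ := h (max k W)
  refine ⟨max n₀ 3, fun n hn hnE => ?_⟩
  have hn3 : 3 ≤ n := le_trans (le_max_right _ _) hn
  have h2 := h1 n (le_trans (le_max_left _ _) hn) hnE hn3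
  refine (h2.mono_W (le_max_right _ _) hn3).mono ?_
  have h3 : (k : ℝ) ≤ ((max k W : ℕ) : ℝ) := by exact_mod_cast le_max_left _ _
  rw [div_le_iff₀ (by positivity)]
  rw [div_lt_iff₀ hε] at hk
  nlinarith

/-- multiples: the `k` with `2 k` in a thin set -/
theorem IsThin.double {E : Set ℕ} (h : IsThin E) : IsThin {k | 2 * k ∈ E} := by
  classical
  intro A
  obtain ⟨X₀, h1⟩ := h (A + 1)
  refine ⟨max X₀ 8, fun X hX => ?_⟩
  have hX8 : (8 : ℝ) ≤ X := by exact_mod_cast (le_trans (le_max_right _ _) hX)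
  have h2 := h1 (2 * X) (by have := le_trans (le_max_left _ _) hX; omega)
  have h3 : ((Icc 1 X).filter (fun n => n ∈ {k | 2 * k ∈ E})).card ≤
      ((Icc 1 (2 * X)).filter (fun n => n ∈ E)).card := by
    rw [← card_image_of_injective ((Icc 1 X).filter (fun n => n ∈ {k | 2 * k ∈ E}))
      (show Function.Injective (fun k : ℕ => 2 * k) from fun a b hab => by simp only at hab; omega)]
    apply card_le_card
    intro m hm
    rw [mem_image] at hm
    obtain ⟨k, hk, rfl⟩ := hm
    rw [mem_filter, mem_Icc] at hk ⊢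
    exact ⟨⟨by omega, by omega⟩, hk.2⟩
  have hlog : 2 ≤ Real.log (2 * X) := by
    rw [Real.le_log_iff_exp_le (by linarith)]
    have h4 : Real.exp 2 = Real.exp 1 * Real.exp 1 := by rw [← Real.exp_add]; norm_num
    have := Real.exp_one_lt_d9
    have h5 := Real.exp_pos 1
    rw [h4]
    nlinarith
  have hlogX : 0 < Real.log X := Real.log_pos (by linarith)
  have hle : Real.log X ≤ Real.log (2 * X) := Real.log_le_log (by linarith) (by linarith)
  calc (((Icc 1 X).filter (fun n => n ∈ {k | 2 * k ∈ E})).card : ℝ)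
      ≤ ((Icc 1 (2 * X)).filter (fun n => n ∈ E)).card := by exact_mod_cast h3
    _ ≤ ((2 * X : ℕ) : ℝ) / Real.log ((2 * X : ℕ) : ℝ) ^ (A + 1) := h2
    _ ≤ X / Real.log X ^ A := by
        push_cast
        rw [pow_succ, div_le_div_iff₀ (by positivity) (by positivity)]
        have h6 : Real.log X ^ A ≤ Real.log (2 * X) ^ A := pow_le_pow_left₀ hlogX.le hle A
        have h7 : 0 ≤ Real.log (2 * X) ^ A := by positivity
        calc 2 * (X : ℝ) * Real.log X ^ A ≤ 2 * X * Real.log (2 * X) ^ A :=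
              mul_le_mul_of_nonneg_left h6 (by positivity)
          _ = X * (Real.log (2 * X) ^ A * 2) := by ring
          _ ≤ X * (Real.log (2 * X) ^ A * Real.log (2 * X)) := by
              apply mul_le_mul_of_nonneg_left _ (by linarith)
              exact mul_le_mul_of_nonneg_left hlog h7

/-- square roots: the `x` with `⌊√x⌋` in a thin set -/
theorem IsThin.sqrt {E : Set ℕ} (h : IsThin E) : IsThin {x | Nat.sqrt x ∈ E} := by
  classical
  intro A
  obtain ⟨X₀, h1⟩ := h (A + 1)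
  obtain ⟨Y, hY⟩ := exists_nat_ge (Real.exp (3 ^ (A + 1)))
  refine ⟨(X₀ + Y + 8) ^ 2, fun X hX => ?_⟩
  obtain ⟨N, hN⟩ : ∃ N, N = Nat.sqrt X := ⟨_, rfl⟩
  have hNm : X₀ + Y + 8 ≤ N := by rw [hN]; exact Nat.le_sqrt'.2 hX
  have h2 := h1 N (by omega)
  have hNN : N * N ≤ X := by rw [hN]; exact Nat.sqrt_le X
  have hNN' : X < (N + 1) * (N + 1) := by rw [hN]; exact Nat.lt_succ_sqrt X
  have h3 : ((Icc 1 X).filter (fun x => x ∈ {x | Nat.sqrt x ∈ E})).card ≤
      ((Icc 1 N).filter (fun n => n ∈ E)).card * (2 * N + 1) := by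
    have hsub : (Icc 1 X).filter (fun x => x ∈ {x | Nat.sqrt x ∈ E}) ⊆
        ((Icc 1 N).filter (fun n => n ∈ E)).biUnion (fun n => Icc (n * n) (n * n + 2 * n)) := by
      intro x hx
      rw [mem_filter, mem_Icc] at hx
      rw [mem_biUnion]
      refine ⟨Nat.sqrt x, ?_, ?_⟩
      · rw [mem_filter, mem_Icc]
        refine ⟨⟨?_, ?_⟩, hx.2⟩
        · exact Nat.le_sqrt.2 (by omega)
        · rw [hN]; exact Nat.sqrt_le_sqrt hx.1.2
      · rw [mem_Icc]
        refine ⟨Nat.sqrt_le x, ?_⟩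
        have := Nat.sqrt_le_add x
        omega
    refine (card_le_card hsub).trans (card_biUnion_le.trans ?_)
    rw [← smul_eq_mul, ← sum_const]
    refine sum_le_sum fun n hn => ?_
    rw [mem_filter, mem_Icc] at hn
    rw [Nat.card_Icc]
    omega
  have hN0 : (8 : ℝ) ≤ N := by exact_mod_cast (by omega : 8 ≤ N)
  have hNNr : (N : ℝ) * N ≤ X := by exact_mod_cast hNN
  have hNNr' : (X : ℝ) ≤ (N + 1) * (N + 1) := by exact_mod_cast hNN'.le
  have hlN : (3 : ℝ) ^ (A + 1) ≤ Real.log N := by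
    rw [Real.le_log_iff_exp_le (by linarith)]
    refine hY.trans ?_
    exact_mod_cast (by omega : Y ≤ N)
  have hl0 : 0 < Real.log N := lt_of_lt_of_le (by positivity) hlN
  have hX0 : (1 : ℝ) < X := by nlinarith
  have hlX0 : 0 < Real.log X := Real.log_pos hX0
  have hlX : Real.log X ≤ 3 * Real.log N := by
    have h4 : (X : ℝ) ≤ (N : ℝ) ^ 3 := by nlinarith
    calc Real.log X ≤ Real.log ((N : ℝ) ^ 3) := Real.log_le_log (by linarith) h4
      _ = 3 * Real.log N := by rw [Real.log_pow]; norm_num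
  have h4 : (((Icc 1 X).filter (fun x => x ∈ {x | Nat.sqrt x ∈ E})).card : ℝ) ≤
      (N / Real.log N ^ (A + 1)) * (2 * N + 1) := by
    calc (((Icc 1 X).filter (fun x => x ∈ {x | Nat.sqrt x ∈ E})).card : ℝ)
        ≤ (((Icc 1 N).filter (fun n => n ∈ E)).card : ℝ) * (2 * N + 1) := by exact_mod_cast h3
      _ ≤ (N / Real.log N ^ (A + 1)) * (2 * N + 1) := mul_le_mul_of_nonneg_right h2 (by positivity)
  refine h4.trans ?_
  have h5 : (N : ℝ) * N / (3 * Real.log N) ^ A ≤ X / Real.log X ^ A := by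
    apply div_le_div₀ (by linarith) hNNr (by positivity)
    exact pow_le_pow_left₀ hlX0.le hlX A
  refine le_trans ?_ h5
  rw [div_mul_eq_mul_div, div_le_div_iff₀ (by positivity) (by positivity), mul_pow, pow_succ]
  have h6 : (0 : ℝ) ≤ Real.log N ^ A := by positivity
  have h7 : (3 : ℝ) ^ A * 3 ≤ Real.log N := by rw [← pow_succ]; exact hlN
  calc (N : ℝ) * (2 * N + 1) * (3 ^ A * Real.log N ^ A)
      ≤ N * (3 * N) * (3 ^ A * Real.log N ^ A) := by
        apply mul_le_mul_of_nonneg_right _ (by positivity)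
        apply mul_le_mul_of_nonneg_left _ (by linarith)
        linarith
    _ = N * N * (Real.log N ^ A * (3 ^ A * 3)) := by ring
    _ ≤ N * N * (Real.log N ^ A * Real.log N) := by
        apply mul_le_mul_of_nonneg_left _ (by positivity)
        exact mul_le_mul_of_nonneg_left h7 h6

end Run7.h946.SQ
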