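import Pool.Agent.Run7.h946.SQ.Use

/-!
# Gaps between consecutive primes of Bohr sets, in terms of square roots
-/

set_option autoImplicit false
set_option maxHeartbeats 4000000

namespace Run7.h946.SQ

open Finset Filter Topology

/-- the logarithms of `n` and of the numbers `m < (n + 1)²` -/
theorem log_le_three {n m : ℕ} (hn : 8 ≤ n) (hm : m < (n + 1) ^ 2) : Real.log m ≤ 3 * Real.log n := by
  have hn' : (8 : ℝ) ≤ n := by exact_mod_cast hn
  rcases Nat.eq_zero_or_pos m with h0 | h0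
  · subst h0
    simp only [Nat.cast_zero, Real.log_zero]
    have := Real.log_natCast_nonneg n
    linarith
  · have hm' : (m : ℝ) ≤ (n + 1) ^ 2 := by exact_mod_cast hm.le
    have hm0 : (0 : ℝ) < m := by exact_mod_cast h0
    have h4 : (m : ℝ) ≤ (n : ℝ) ^ 3 := by nlinarith
    calc Real.log m ≤ Real.log ((n : ℝ) ^ 3) := Real.log_le_log hm0 h4
      _ = 3 * Real.log n := by rw [Real.log_pow]; norm_num

/-- There are primes of the Bohr set close to `m` on both sides. -/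
theorem Good.gap {r : ℕ} {α : Fin r → ℝ} {V : ℕ} {ε δ : ℝ} {n m : ℕ} (h : Good α (V + 2) ε n) (hε : ε < δ)
    (hn : 20 ≤ n) (hlog : 16 * 3 ^ V ≤ Real.log n) (hbig : 1 ≤ (n : ℝ) / Real.log n ^ (V + 2))
    (h1 : n ^ 2 ≤ m) (h2 : m < (n + 1) ^ 2)
    {u v : Fin r → ℝ} (hu : ∀ j, u j ≤ v j) (hv : ∀ j, v j ≤ u j + 1) (hvol : δ ≤ ∏ j, (v j - u j)) :
    ∃ p q : ℕ, Bohr α u v p ∧ Bohr α u v q ∧ p ≤ m ∧ m < q ∧ √(q : ℝ) - √(p : ℝ) < 1 / Real.log m ^ V := by
  have hn' : (20 : ℝ) ≤ n := by exact_mod_cast hn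
  have hl0 : 0 < Real.log n := Real.log_pos (by linarith)
  have hl16 : 16 ≤ Real.log n := by
    have : (1 : ℝ) ≤ 3 ^ V := one_le_pow₀ (by norm_num)
    linarith
  have hl1 : 1 ≤ Real.log n := by linarith
  obtain ⟨L, hL⟩ : ∃ L, L = ⌈(n : ℝ) / Real.log n ^ (V + 2)⌉₊ := ⟨_, rfl⟩
  have hL1 : (n : ℝ) / Real.log n ^ (V + 2) ≤ L := by rw [hL]; exact Nat.le_ceil _
  have hL2 : (L : ℝ) ≤ 2 * ((n : ℝ) / Real.log n ^ (V + 2)) := by
    have h3 := Nat.ceil_lt_add_one (show 0 ≤ (n : ℝ) / Real.log n ^ (V + 2) by positivity)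
    rw [← hL] at h3
    linarith
  have hL3 : (L : ℝ) ≤ n / 8 := by
    refine hL2.trans ?_
    have h4 : (16 : ℝ) ≤ Real.log n ^ (V + 2) := by
      calc (16 : ℝ) ≤ Real.log n := hl16
        _ = Real.log n ^ 1 := (pow_one _).symm
        _ ≤ Real.log n ^ (V + 2) := pow_le_pow_right₀ hl1 (by omega)
    have h5 : (n : ℝ) / Real.log n ^ (V + 2) ≤ n / 16 := div_le_div_of_nonneg_left (by linarith) (by norm_num) h4
    linarith
  have hL4 : L ≤ n := by
    have : (L : ℝ) ≤ n := by linarith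
    exact_mod_cast this
  have hsq : (n - 1) ^ 2 + n ≤ n ^ 2 := by
    obtain ⟨k, rfl⟩ : ∃ k, n = k + 1 := ⟨n - 1, by omega⟩
    simp only [Nat.add_sub_cancel]
    nlinarith
  have hLm : L ≤ m := by nlinarith
  obtain ⟨p, a1, a2, a3⟩ := h.exists (by omega) (s := m - L) (t := m) (by omega) (Nat.sub_le _ _)
    (by nlinarith) (by
      rw [Nat.cast_sub hLm]
      linarith) hu hv hε hvol
  obtain ⟨q, b1, b2, b3⟩ := h.exists (by omega) (s := m) (t := m + L) (by omega) (Nat.le_add_right _ _)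
    (by nlinarith) (by
      push_cast
      linarith) hu hv hε hvol
  refine ⟨p, q, a3, b3, a2, b1, ?_⟩
  have hqp : (q : ℝ) - p ≤ 2 * L := by
    have c1 : (q : ℝ) ≤ m + L := by exact_mod_cast b2
    have c2 : (m : ℝ) ≤ p + L := by
      have : m ≤ p + L := by omega
      exact_mod_cast this
    linarith
  have hqn : (n : ℝ) ≤ √(q : ℝ) := by
    apply Real.le_sqrt_of_sq_le
    have c1 : n ^ 2 ≤ q := by omega
    exact_mod_cast c1
  have hp0 : 0 ≤ √(p : ℝ) := Real.sqrt_nonneg _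
  have hq2 : √(q : ℝ) * √(q : ℝ) = q := Real.mul_self_sqrt (Nat.cast_nonneg _)
  have hp2 : √(p : ℝ) * √(p : ℝ) = p := Real.mul_self_sqrt (Nat.cast_nonneg _)
  have hpq : √(p : ℝ) ≤ √(q : ℝ) := Real.sqrt_le_sqrt (by
    have : p ≤ q := by omega
    exact_mod_cast this)
  have hd : (√(q : ℝ) - √(p : ℝ)) * n ≤ 2 * L := by
    calc (√(q : ℝ) - √(p : ℝ)) * n ≤ (√(q : ℝ) - √(p : ℝ)) * (√(q : ℝ) + √(p : ℝ)) :=
          mul_le_mul_of_nonneg_left (by linarith) (by linarith)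
      _ = √(q : ℝ) * √(q : ℝ) - √(p : ℝ) * √(p : ℝ) := by ring
      _ = q - p := by rw [hq2, hp2]
      _ ≤ 2 * L := hqp
  have hd2 : √(q : ℝ) - √(p : ℝ) ≤ 4 / Real.log n ^ (V + 2) := by
    have c1 : (√(q : ℝ) - √(p : ℝ)) * n ≤ (4 / Real.log n ^ (V + 2)) * n := by
      calc (√(q : ℝ) - √(p : ℝ)) * n ≤ 2 * L := hd
        _ ≤ 2 * (2 * ((n : ℝ) / Real.log n ^ (V + 2))) := by linarith
        _ = (4 / Real.log n ^ (V + 2)) * n := by ring
    exact le_of_mul_le_mul_right c1 (by linarith)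
  refine lt_of_le_of_lt hd2 ?_
  have hm0 : 0 < Real.log m := by
    apply Real.log_pos
    have c1 : 1 < m := by nlinarith
    exact_mod_cast c1
  have hlm := log_le_three (by omega) h2
  have c2 : Real.log m ^ V ≤ 3 ^ V * Real.log n ^ V := by
    rw [← mul_pow]
    exact pow_le_pow_left₀ hm0.le hlm V
  rw [div_lt_div_iff₀ (by positivity) (by positivity)]
  have c3 : 0 < Real.log n ^ V := by positivity
  calc 4 * Real.log m ^ V ≤ 4 * (3 ^ V * Real.log n ^ V) := by linarith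
    _ < (16 * 3 ^ V) * Real.log n ^ V := by
        have c4 : (0 : ℝ) < 3 ^ V := by positivity
        have c5 : 0 < 3 ^ V * Real.log n ^ V := by positivity
        nlinarith
    _ ≤ Real.log n * Real.log n ^ V := mul_le_mul_of_nonneg_right hlog c3.le
    _ ≤ Real.log n * Real.log n * Real.log n ^ V := by
        have c6 : 0 ≤ Real.log n * Real.log n ^ V := by positivity
        nlinarith
    _ = 1 * Real.log n ^ (V + 2) := by rw [pow_add]; ring

/-- the conditions of `Good.gap` hold for all large `n` -/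
theorem gap_large (V : ℕ) : ∃ n₁ : ℕ, ∀ n : ℕ, n₁ ≤ n →
    20 ≤ n ∧ 16 * 3 ^ V ≤ Real.log n ∧ 1 ≤ (n : ℝ) / Real.log n ^ (V + 2) := by
  obtain ⟨a, ha⟩ := large_log (V + 2) 1 1 one_pos
  obtain ⟨b, hb⟩ := exists_nat_ge (Real.exp (16 * 3 ^ V))
  refine ⟨max (max a b) 20, fun n hn => ?_⟩
  have h1 : a ≤ n := ((le_max_left _ _).trans (le_max_left _ _)).trans hn
  have h2 : b ≤ n := ((le_max_right _ _).trans (le_max_left _ _)).trans hn
  have h3 : 20 ≤ n := (le_max_right _ _).trans hn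
  refine ⟨h3, ?_, ?_⟩
  · have h4 : (0 : ℝ) < n := by exact_mod_cast (by omega : 0 < n)
    rw [Real.le_log_iff_exp_le h4]
    exact hb.trans (by exact_mod_cast h2)
  · have := ha n h1
    linarith

end Run7.h946.SQ
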