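import Pool.Agent.Run7.h946.SQ.Exc

/-!
# Thin sets and lacunary sequences

`lacunary`: if `E` is thin and `a_j ≥ exp (j^δ)`, then for almost all real `β` all the integers near `β a_j` are outside of
`E` for all large `j` (Borel and Cantelli).
-/

set_option autoImplicit false
set_option maxHeartbeats 4000000

namespace Run7.h946.SQ

open Finset Filter MeasureTheory

theorem lacunary_aux {E : Set ℕ} (hE : IsThin E) {δ : ℝ} (hδ : 0 < δ) {a : ℕ → ℝ}
    (ha : ∀ j : ℕ, Real.exp ((j : ℝ) ^ δ) ≤ a j) (W M : ℕ) :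
    ∀ᵐ β : ℝ, ∀ᶠ j in atTop, |β| ≤ M → ∀ n : ℕ, 1 ≤ n → |(n : ℝ) - β * a j| ≤ Real.log (a j) ^ W → n ∉ E := by
  classical
  have ha0 : ∀ j, 0 < a j := fun j => lt_of_lt_of_le (Real.exp_pos _) (ha j)
  have hlog : ∀ j : ℕ, (j : ℝ) ^ δ ≤ Real.log (a j) := fun j => by
    rw [Real.le_log_iff_exp_le (ha0 j)]
    exact ha j
  have hlogt : Tendsto (fun j : ℕ => Real.log (a j)) atTop atTop := by
    refine tendsto_atTop_mono hlog ?_
    exact (tendsto_rpow_atTop hδ).comp tendsto_natCast_atTop_atTop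
  have hat : Tendsto a atTop atTop := by
    refine tendsto_atTop_mono (fun j => ?_) hlogt
    exact Real.log_le_self (ha0 j).le
  obtain ⟨A, hA⟩ : ∃ A : ℕ, 2 ≤ δ * A := by
    obtain ⟨A, hA⟩ := exists_nat_ge (2 / δ)
    refine ⟨A, ?_⟩
    rw [div_le_iff₀ hδ] at hA
    linarith
  obtain ⟨X₀, hX₀⟩ := hE (A + W)
  -- the growth conditions
  have e1 : ∀ᶠ j in atTop, (X₀ : ℝ) + 3 ≤ a j := hat.eventually_ge_atTop _
  have e2 : ∀ᶠ j in atTop, Real.log (a j) ^ W ≤ a j := by
    have h1 : ∀ᶠ x : ℝ in atTop, Real.log x ^ W ≤ x := by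
      have h2 := (Real.isLittleO_pow_log_id_atTop (n := W)).def (c := 1) one_pos
      filter_upwards [h2, eventually_ge_atTop (1 : ℝ)] with x hx hx1
      have h3 : |Real.log x ^ W| ≤ 1 * |x| := hx
      rw [abs_of_nonneg (pow_nonneg (Real.log_nonneg hx1) W), abs_of_nonneg (by linarith), one_mul] at h3
      exact h3
    exact hat.eventually h1
  have e3 : ∀ᶠ j : ℕ in atTop, 1 ≤ j := eventually_ge_atTop 1
  obtain ⟨j₀, hj₀⟩ := eventually_atTop.1 (e1.and (e2.and e3))
  set F : ℕ → Finset ℕ := fun j => (Icc 1 ⌊(M + 2) * a j⌋₊).filter (fun n => n ∈ E) with hF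
  set S : ℕ → Set ℝ := fun j => ⋃ n ∈ F j,
    Set.Icc (((n : ℝ) - Real.log (a j) ^ W) / a j) (((n : ℝ) + Real.log (a j) ^ W) / a j) with hS
  set T : ℕ → Set ℝ := fun j => if j₀ ≤ j then S j else ∅ with hT
  have hmeas : ∀ j, volume (T j) ≤ ENNReal.ofReal (2 * (M + 2) * (1 / (j : ℝ) ^ 2)) := by
    intro j
    rw [hT]
    by_cases hj : j₀ ≤ j
    · simp only [hj, if_true]
      obtain ⟨g1, g2, g3⟩ := hj₀ j hj
      have hX0 : (0 : ℝ) ≤ X₀ := Nat.cast_nonneg _
      have hM0 : (0 : ℝ) ≤ M := Nat.cast_nonneg _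
      have ha3 : 3 ≤ a j := by linarith
      have hl1 : 1 ≤ Real.log (a j) := by
        rw [Real.le_log_iff_exp_le (ha0 j)]
        have := Real.exp_one_lt_d9
        linarith
      have hl0 : 0 < Real.log (a j) := by linarith
      have hfl : (⌊(M + 2) * a j⌋₊ : ℝ) ≤ (M + 2) * a j := Nat.floor_le (by positivity)
      have hfl2 : X₀ ≤ ⌊(M + 2) * a j⌋₊ := by
        apply Nat.le_floor
        nlinarith
      have hcard := hX₀ _ hfl2
      have hfl3 : a j ≤ ⌊(M + 2) * a j⌋₊ := by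
        have h1 := Nat.lt_floor_add_one ((M + 2) * a j)
        nlinarith
      have hcard2 : ((F j).card : ℝ) ≤ (M + 2) * a j / Real.log (a j) ^ (A + W) := by
        refine hcard.trans ?_
        apply div_le_div₀ (by positivity) hfl (by positivity)
        exact pow_le_pow_left₀ hl0.le (Real.log_le_log (ha0 j) hfl3) _
      calc volume (S j) ≤ ∑ n ∈ F j, volume (Set.Icc (((n : ℝ) - Real.log (a j) ^ W) / a j)
              (((n : ℝ) + Real.log (a j) ^ W) / a j)) := measure_biUnion_finset_le _ _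
        _ = ∑ n ∈ F j, ENNReal.ofReal (2 * Real.log (a j) ^ W / a j) := by
            refine sum_congr rfl fun n _ => ?_
            rw [Real.volume_Icc]
            congr 1
            ring
        _ = ENNReal.ofReal ((F j).card * (2 * Real.log (a j) ^ W / a j)) := by
            rw [sum_const, nsmul_eq_mul, ENNReal.ofReal_mul (Nat.cast_nonneg _), ENNReal.ofReal_natCast]
        _ ≤ ENNReal.ofReal (2 * (M + 2) * (1 / (j : ℝ) ^ 2)) := by
            apply ENNReal.ofReal_le_ofReal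
            have hj1 : (1 : ℝ) ≤ j := by exact_mod_cast g3
            have h1 : (j : ℝ) ^ 2 ≤ Real.log (a j) ^ A := by
              calc (j : ℝ) ^ 2 = (j : ℝ) ^ (2 : ℝ) := (Real.rpow_two _).symm
                _ ≤ (j : ℝ) ^ (δ * A) := Real.rpow_le_rpow_of_exponent_le hj1 hA
                _ = ((j : ℝ) ^ δ) ^ A := Real.rpow_mul_natCast (by linarith) δ A
                _ ≤ Real.log (a j) ^ A := pow_le_pow_left₀ (Real.rpow_nonneg (by linarith) _) (hlog j) A
            calc ((F j).card : ℝ) * (2 * Real.log (a j) ^ W / a j)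
                ≤ ((M + 2) * a j / Real.log (a j) ^ (A + W)) * (2 * Real.log (a j) ^ W / a j) :=
                  mul_le_mul_of_nonneg_right hcard2 (by have := ha0 j; positivity)
              _ = 2 * (M + 2) * (1 / Real.log (a j) ^ A) := by
                  rw [pow_add]
                  have := ha0 j
                  field_simp
              _ ≤ 2 * (M + 2) * (1 / (j : ℝ) ^ 2) := by
                  apply mul_le_mul_of_nonneg_left _ (by positivity)
                  exact one_div_le_one_div_of_le (by positivity) h1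
    · simp only [hj, if_false, measure_empty, zero_le]
  have hsum : ∑' j, volume (T j) ≠ ⊤ := by
    have h1 : Summable (fun j : ℕ => 2 * ((M : ℝ) + 2) * (1 / (j : ℝ) ^ 2)) :=
      (Real.summable_one_div_nat_pow.2 (by norm_num)).mul_left _
    exact ne_top_of_le_ne_top h1.tsum_ofReal_ne_top (ENNReal.tsum_le_tsum hmeas)
  filter_upwards [ae_eventually_notMem hsum] with β hβ
  filter_upwards [hβ, eventually_ge_atTop j₀] with j hj hjj hβM n hn hnear hnE
  obtain ⟨g1, g2, g3⟩ := hj₀ j hjj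
  apply hj
  rw [hT]
  simp only [hjj, if_true]
  rw [hS]
  simp only [Set.mem_iUnion]
  have ha := ha0 j
  rw [abs_le] at hnear
  refine ⟨n, ?_, ?_, ?_⟩
  · rw [hF]
    rw [mem_filter, mem_Icc]
    refine ⟨⟨hn, ?_⟩, hnE⟩
    apply Nat.le_floor
    have h1 : β * a j ≤ M * a j := mul_le_mul_of_nonneg_right ((le_abs_self β).trans hβM) ha.le
    linarith
  · rw [div_le_iff₀ ha]
    linarith
  · rw [le_div_iff₀ ha]
    linarith

/-- the growth of the sequences -/
theorem growth {δ : ℝ} (hδ : 0 < δ) {a : ℕ → ℝ} (ha : ∀ j : ℕ, Real.exp ((j : ℝ) ^ δ) ≤ a j) (V : ℕ) :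
    Tendsto a atTop atTop ∧ (∀ᶠ j in atTop, 2 ≤ Real.log (a j)) ∧
      ∀ c : ℝ, 0 < c → ∀ᶠ j in atTop, Real.log (a j) ^ V ≤ c * a j := by
  have ha0 : ∀ j, 0 < a j := fun j => lt_of_lt_of_le (Real.exp_pos _) (ha j)
  have hlog : ∀ j : ℕ, (j : ℝ) ^ δ ≤ Real.log (a j) := fun j => by
    rw [Real.le_log_iff_exp_le (ha0 j)]
    exact ha j
  have hlogt : Tendsto (fun j : ℕ => Real.log (a j)) atTop atTop := by
    refine tendsto_atTop_mono hlog ?_
    exact (tendsto_rpow_atTop hδ).comp tendsto_natCast_atTop_atTop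
  have hat : Tendsto a atTop atTop := by
    refine tendsto_atTop_mono (fun j => ?_) hlogt
    exact Real.log_le_self (ha0 j).le
  refine ⟨hat, hlogt.eventually_ge_atTop 2, fun c hc => ?_⟩
  have h1 : ∀ᶠ x : ℝ in atTop, Real.log x ^ V ≤ c * x := by
    have h2 := (Real.isLittleO_pow_log_id_atTop (n := V)).def (c := c) hc
    filter_upwards [h2, eventually_ge_atTop (1 : ℝ)] with x hx hx1
    have h3 : |Real.log x ^ V| ≤ c * |x| := hx
    rw [abs_of_nonneg (pow_nonneg (Real.log_nonneg hx1) V), abs_of_nonneg (by linarith)] at h3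
    exact h3
  exact hat.eventually h1

/-- Almost every real number `β` has the property: all the integers near the `β a_j` are outside of the thin set `E` for
all large `j`. -/
theorem lacunary {E : Set ℕ} (hE : IsThin E) {δ : ℝ} (hδ : 0 < δ) {a : ℕ → ℝ}
    (ha : ∀ j : ℕ, Real.exp ((j : ℝ) ^ δ) ≤ a j) (W : ℕ) :
    ∀ᵐ β : ℝ, ∀ᶠ j in atTop, ∀ n : ℕ, 1 ≤ n → |(n : ℝ) - β * a j| ≤ Real.log (a j) ^ W → n ∉ E := by
  have h1 : ∀ᵐ β : ℝ, ∀ M : ℕ, ∀ᶠ j in atTop, |β| ≤ M → ∀ n : ℕ, 1 ≤ n →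
      |(n : ℝ) - β * a j| ≤ Real.log (a j) ^ W → n ∉ E := by
    rw [ae_all_iff]
    exact fun M => lacunary_aux hE hδ ha W M
  filter_upwards [h1] with β hβ
  obtain ⟨M, hM⟩ := exists_nat_ge |β|
  filter_upwards [hβ M] with j hj
  exact hj hM

end Run7.h946.SQ
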