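import Pool.Agent.Run7.h946.SQ.Use

/-!
# A lower bound for Euler's function; thin sets and finitely many exceptions
-/

set_option autoImplicit false
set_option maxHeartbeats 4000000

namespace Run7.h946.SQ

open Finset Filter Topology
open Run7.h469.GA (Thin)

theorem prod_lower (S : Finset ℕ) : (∀ p ∈ S, 2 ≤ p) → 1 / ((S.card : ℝ) + 1) ≤ ∏ p ∈ S, (1 - (p : ℝ)⁻¹) := by
  induction S using Finset.induction_on_max with
  | empty => intro _; simp
  | insert a s hlt ih =>
    intro h
    have hs : ∀ p ∈ s, 2 ≤ p := fun p hp => h p (mem_insert_of_mem hp)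
    have ha : a ∉ s := fun hh => lt_irrefl a (hlt a hh)
    have h1 := ih hs
    rw [prod_insert ha, card_insert_of_notMem ha]
    have h2 : s.card + 2 ≤ a := by
      have h3 : s ⊆ Ico 2 a := fun p hp => mem_Ico.2 ⟨hs p hp, hlt p hp⟩
      have h4 := card_le_card h3
      rw [Nat.card_Ico] at h4
      have h5 := h a (mem_insert_self a s)
      omega
    have h3 : (s.card : ℝ) + 2 ≤ a := by exact_mod_cast h2
    have hc : (0 : ℝ) ≤ s.card := Nat.cast_nonneg _
    have h4 : (a : ℝ)⁻¹ ≤ ((s.card : ℝ) + 2)⁻¹ := inv_anti₀ (by linarith) h3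
    have h5 : 1 - ((s.card : ℝ) + 2)⁻¹ = ((s.card : ℝ) + 1) / (s.card + 2) := by field_simp; ring
    have h6 : ((s.card : ℝ) + 1) / (s.card + 2) ≤ 1 - (a : ℝ)⁻¹ := by rw [← h5]; linarith
    push_cast
    calc 1 / ((s.card : ℝ) + 1 + 1) = ((s.card : ℝ) + 1) / (s.card + 2) * (1 / ((s.card : ℝ) + 1)) := by
          field_simp
          ring
      _ ≤ (1 - (a : ℝ)⁻¹) * ∏ p ∈ s, (1 - (p : ℝ)⁻¹) := by
          apply mul_le_mul h6 h1 (by positivity)
          exact le_trans (by positivity) h6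

/-- `φ(n) ≥ n / (3 log n)` -/
theorem totient_lower (n : ℕ) (hn : 3 ≤ n) : (n : ℝ) / (3 * Real.log n) ≤ Nat.totient n := by
  have hn3 : (3 : ℝ) ≤ n := by exact_mod_cast hn
  have hl : 1 ≤ Real.log n := by
    rw [Real.le_log_iff_exp_le (by linarith)]
    have := Real.exp_one_lt_d9
    linarith
  have h1 : (Nat.totient n : ℝ) = n * ∏ p ∈ n.primeFactors, (1 - (p : ℝ)⁻¹) := by
    have h2 := Nat.totient_eq_mul_prod_factors n
    have h3 : ((Nat.totient n : ℚ) : ℝ) = ((n * ∏ p ∈ n.primeFactors, (1 - (p : ℚ)⁻¹) : ℚ) : ℝ) := by rw [h2]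
    push_cast at h3
    exact h3
  have h2 := prod_lower n.primeFactors (fun p hp => (Nat.prime_of_mem_primeFactors hp).two_le)
  have h3 : (2 : ℝ) ^ n.primeFactors.card ≤ n := by
    have h4 : 2 ^ n.primeFactors.card ≤ ∏ p ∈ n.primeFactors, p := by
      rw [← prod_const]
      exact prod_le_prod' (fun p hp => (Nat.prime_of_mem_primeFactors hp).two_le)
    have h5 : ∏ p ∈ n.primeFactors, p ≤ n := Nat.le_of_dvd (by omega) (Nat.prod_primeFactors_dvd n)
    exact_mod_cast h4.trans h5
  have h4 : (n.primeFactors.card : ℝ) * Real.log 2 ≤ Real.log n := by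
    rw [← Real.log_pow]
    exact Real.log_le_log (by positivity) h3
  have h5 : (n.primeFactors.card : ℝ) + 1 ≤ 3 * Real.log n := by
    have h6 := Real.log_two_gt_d9
    have h7 : (0 : ℝ) ≤ n.primeFactors.card := Nat.cast_nonneg _
    nlinarith
  rw [h1, div_eq_mul_one_div]
  apply mul_le_mul_of_nonneg_left _ (by linarith)
  refine le_trans ?_ h2
  exact one_div_le_one_div_of_le (by positivity) h5

/-- finitely many exceptions do not matter -/
theorem thin_of_large {F : Set ℕ} (hF : IsThin F) {P : ℕ → Prop} (M : ℕ) (h : ∀ n, M ≤ n → n ∉ F → P n) : Thin P := by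
  classical
  intro A
  obtain ⟨X₀, h1⟩ := hF (A + 1)
  obtain ⟨X₁, h2⟩ := large_log A (1 / 2) M (by norm_num)
  refine ⟨max (max X₀ X₁) 8, fun X hX => ?_⟩
  have hX0 : X₀ ≤ X := ((le_max_left _ _).trans (le_max_left _ _)).trans hX
  have hX1 : X₁ ≤ X := ((le_max_right _ _).trans (le_max_left _ _)).trans hX
  have hX8 : (8 : ℝ) ≤ X := by exact_mod_cast (le_max_right _ _).trans hX
  have hlog : 2 ≤ Real.log X := by
    rw [Real.le_log_iff_exp_le (by linarith)]
    have h4 : Real.exp 2 = Real.exp 1 * Real.exp 1 := by rw [← Real.exp_add]; norm_num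
    have := Real.exp_one_lt_d9
    have h5 := Real.exp_pos 1
    rw [h4]
    nlinarith
  have h3 := h1 X hX0
  have h4 := h2 X hX1
  have h5 : ((Icc 1 X).filter (fun n => ¬ P n)).card ≤ ((Icc 1 X).filter (fun n => n ∈ F)).card + M := by
    have h6 : (Icc 1 X).filter (fun n => ¬ P n) ⊆ (Icc 1 X).filter (fun n => n ∈ F) ∪ range M := by
      intro n hn
      rw [mem_filter] at hn
      rw [mem_union, mem_filter, mem_range]
      by_contra hcon
      push Not at hcon
      exact hn.2 (h n hcon.2 (fun hh => hcon.1 hn.1 hh))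
    have h7 := (card_le_card h6).trans (card_union_le _ _)
    rwa [card_range] at h7
  have h6 : (((Icc 1 X).filter (fun n => ¬ P n)).card : ℝ) ≤ ((Icc 1 X).filter (fun n => n ∈ F)).card + M := by
    exact_mod_cast h5
  have h7 : (X : ℝ) / Real.log X ^ (A + 1) ≤ 1 / 2 * (X / Real.log X ^ A) := by
    rw [pow_succ]
    have h8 : (X : ℝ) / (Real.log X ^ A * Real.log X) = (X / Real.log X ^ A) / Real.log X := by
      rw [div_div]
    rw [h8]
    have h9 : 0 ≤ (X : ℝ) / Real.log X ^ A := by positivity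
    rw [div_le_iff₀ (by linarith)]
    nlinarith
  linarith

end Run7.h946.SQ
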