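import Pool.Agent.Run7.h946.SQ.Met

/-!
# Consequences of `Good` and lemmas on thin sets which are used in several results files
-/

set_option autoImplicit false
set_option maxHeartbeats 4000000

namespace Run7.h946.SQ

open Finset Filter Topology MeasureTheory

/-- the number of the primes of a Bohr set in `(s, t]` is at least `(δ - ε) (t - s) / (2 log n)` -/
theorem Good.many {r : ℕ} {α : Fin r → ℝ} {W : ℕ} {ε δ : ℝ} {n : ℕ} (h : Good α W ε n) {s t : ℕ}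
    (hs : (n - 1) ^ 2 ≤ s) (hst : s ≤ t) (ht : t ≤ (n + 2) ^ 2) (hlen : (n : ℝ) / Real.log n ^ W ≤ (t : ℝ) - s)
    {u v : Fin r → ℝ} (hu : ∀ j, u j ≤ v j) (hv : ∀ j, v j ≤ u j + 1) (hvol : δ ≤ ∏ j, (v j - u j)) :
    (δ - ε) * (((t : ℝ) - s) / (2 * Real.log n)) ≤ cnt (Bohr α u v) s t := by
  have h1 := (abs_le.1 (h s t hs hst ht hlen u v hu hv)).1
  have h2 : 0 ≤ ((t : ℝ) - s) / (2 * Real.log n) := by
    have h3 : (s : ℝ) ≤ t := by exact_mod_cast hst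
    have h4 : 0 ≤ Real.log n := Real.log_natCast_nonneg n
    have h5 : 0 ≤ (t : ℝ) - s := by linarith
    positivity
  have h3 := mul_le_mul_of_nonneg_right hvol h2
  rw [sub_mul]
  linarith

/-- there is a prime of the Bohr set in `(s, t]` -/
theorem Good.exists {r : ℕ} {α : Fin r → ℝ} {W : ℕ} {ε δ : ℝ} {n : ℕ} (h : Good α W ε n) (hn : 2 ≤ n) {s t : ℕ}
    (hs : (n - 1) ^ 2 ≤ s) (hst : s ≤ t) (ht : t ≤ (n + 2) ^ 2) (hlen : (n : ℝ) / Real.log n ^ W ≤ (t : ℝ) - s)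
    {u v : Fin r → ℝ} (hu : ∀ j, u j ≤ v j) (hv : ∀ j, v j ≤ u j + 1) (hδ : ε < δ) (hvol : δ ≤ ∏ j, (v j - u j)) :
    ∃ p, s < p ∧ p ≤ t ∧ Bohr α u v p := by
  classical
  have hn2 : (2 : ℝ) ≤ n := by exact_mod_cast hn
  have hlog : 0 < Real.log n := Real.log_pos (by linarith)
  have h1 := h.many hs hst ht hlen hu hv hvol
  have h2 : 0 < (t : ℝ) - s := lt_of_lt_of_le (by positivity) hlen
  have h3 : 0 < (δ - ε) * (((t : ℝ) - s) / (2 * Real.log n)) := mul_pos (by linarith) (by positivity)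
  have h4 : 0 < cnt (Bohr α u v) s t := by exact_mod_cast lt_of_lt_of_le h3 h1
  unfold cnt at h4
  obtain ⟨p, hp⟩ := card_pos.1 h4
  obtain ⟨h5, h6⟩ := Finset.mem_filter.1 hp
  rw [mem_Ioc] at h5
  exact ⟨p, h5.1, h5.2, h6⟩

open Run7.h469.GA (Thin) in
theorem isThin_of_thin {P : ℕ → Prop} (h : Thin P) : IsThin {n | ¬ P n} := by
  classical
  intro A
  obtain ⟨X₀, h1⟩ := h A
  refine ⟨X₀, fun X hX => le_trans ?_ (h1 X hX)⟩
  apply Nat.cast_le.2
  apply card_le_card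
  intro n hn
  simp only [Finset.mem_filter, Set.mem_setOf_eq] at hn ⊢
  exact hn

/-- `(n - 1)² ≤ n² - n` -/
theorem sq_sub (n : ℕ) (hn : 1 ≤ n) : (n - 1) ^ 2 ≤ n ^ 2 - n := by
  obtain ⟨m, rfl⟩ : ∃ m, n = m + 1 := ⟨n - 1, by omega⟩
  have h2 : (m + 1) ^ 2 - (m + 1) = m ^ 2 + m := by
    have : (m + 1) ^ 2 = m ^ 2 + m + (m + 1) := by ring
    omega
  rw [h2]
  simp

/-- polylogarithmic lower bounds -/
theorem large_log (W : ℕ) (c K : ℝ) (hc : 0 < c) : ∃ n₀ : ℕ, ∀ n : ℕ, n₀ ≤ n → K ≤ c * (n / Real.log n ^ W) := by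
  have h1 : Tendsto (fun x : ℝ => x / Real.log x ^ W) atTop atTop := by
    have h2 := (Real.isLittleO_pow_log_id_atTop (n := W))
    have h3 : Tendsto (fun x : ℝ => Real.log x ^ W / x) atTop (𝓝 0) := h2.tendsto_div_nhds_zero
    have h4 : Tendsto (fun x : ℝ => Real.log x ^ W / x) atTop (𝓝[>] 0) := by
      rw [tendsto_nhdsWithin_iff]
      refine ⟨h3, ?_⟩
      filter_upwards [eventually_gt_atTop (1 : ℝ)] with x hx
      have := Real.log_pos hx
      show 0 < Real.log x ^ W / x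
      positivity
    have h5 := h4.inv_tendsto_nhdsGT_zero
    refine h5.congr (fun x => ?_)
    simp only [Pi.inv_apply, inv_div]
  have h2 : Tendsto (fun n : ℕ => (n : ℝ) / Real.log n ^ W) atTop atTop := h1.comp tendsto_natCast_atTop_atTop
  obtain ⟨n₀, h3⟩ := eventually_atTop.1 (h2.eventually_ge_atTop (K / c))
  refine ⟨n₀, fun n hn => ?_⟩
  have h4 := h3 n hn
  rw [div_le_iff₀ hc] at h4
  linarith

end Run7.h946.SQ
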