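import Pool.Agent.Run7.h946.SQ.Use

/-!
# Gaps of size `x^(1/3 + κ)` in Bohr sets of primes, outside of a thin set
-/

set_option autoImplicit false
set_option maxHeartbeats 4000000

namespace Run7.h946.SQ

open Finset Filter Topology
open Run7.h469.GA (Thin)

/-- In every box of volume at least `δ` there are primes on both sides of `x` at distance at most `x ^ (1 / 3 + κ)`. -/
def Close {r : ℕ} (α : Fin r → ℝ) (κ δ : ℝ) (x : ℕ) : Prop :=
  ∀ u v : Fin r → ℝ, (∀ j, u j ≤ v j) → (∀ j, v j ≤ u j + 1) → δ ≤ ∏ j, (v j - u j) →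
    (∃ p : ℕ, Bohr α u v p ∧ p ≤ x ∧ (x : ℝ) - (x : ℝ) ^ (1 / 3 + κ) ≤ p) ∧
    ∃ q : ℕ, Bohr α u v q ∧ x < q ∧ (q : ℝ) ≤ x + (x : ℝ) ^ (1 / 3 + κ)

/-- powers of the logarithm and small powers -/
theorem ev_pow (k : ℕ) (K ρ : ℝ) (hρ : 0 < ρ) : ∃ N₀ : ℕ, ∀ N : ℕ, N₀ ≤ N → K * Real.log N ^ k ≤ (N : ℝ) ^ ρ := by
  have h1 : ∀ᶠ x : ℝ in atTop, |K| * Real.log x ^ k ≤ x ^ ρ := by
    have h2 := (isLittleO_log_rpow_rpow_atTop (k : ℝ) hρ).def (c := 1 / (|K| + 1)) (by positivity)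
    filter_upwards [h2, eventually_ge_atTop (1 : ℝ)] with x hx hx1
    have h3 : 0 ≤ Real.log x := Real.log_nonneg hx1
    have h4 : ‖Real.log x ^ (k : ℝ)‖ = Real.log x ^ k := by
      rw [Real.rpow_natCast, Real.norm_of_nonneg (pow_nonneg h3 k)]
    have h5 : ‖x ^ ρ‖ = x ^ ρ := Real.norm_of_nonneg (Real.rpow_nonneg (by linarith) _)
    rw [h4, h5] at hx
    have h6 : 0 ≤ Real.log x ^ k := pow_nonneg h3 k
    have h7 : (|K| + 1) * Real.log x ^ k ≤ x ^ ρ := by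
      have h8 : 0 < |K| + 1 := by positivity
      calc (|K| + 1) * Real.log x ^ k ≤ (|K| + 1) * (1 / (|K| + 1) * x ^ ρ) := mul_le_mul_of_nonneg_left hx h8.le
        _ = x ^ ρ := by field_simp
    linarith
  obtain ⟨N₀, h2⟩ := eventually_atTop.1 (tendsto_natCast_atTop_atTop.eventually h1)
  refine ⟨max N₀ 1, fun N hN => ?_⟩
  have h3 := h2 N (le_trans (le_max_left _ _) hN)
  have h4 : 0 ≤ Real.log (N : ℝ) ^ k := pow_nonneg (Real.log_natCast_nonneg N) k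
  have h5 := mul_le_mul_of_nonneg_right (le_abs_self K) h4
  linarith

/-- the conditions on `N` -/
theorem win_large (B C : ℕ) (κ c : ℝ) (hκ : 0 < κ) : ∃ N₀ : ℕ, ∀ N : ℕ, N₀ ≤ N →
    16 ≤ N ∧ 3 ≤ Real.log N ∧ 2 * Real.log N ^ (2 * C + B) ≤ (N : ℝ) ^ (2 / 3 : ℝ) ∧
    2 / c ≤ (N : ℝ) ^ (1 / 3 : ℝ) ∧
    2 * ((N : ℝ) ^ (1 / 3 : ℝ) * Real.log N ^ C) ≤ ((N : ℝ) / Real.log N ^ B) ^ (1 / 3 + κ) := by
  obtain ⟨σ, hσ⟩ : ∃ σ : ℝ, σ = (κ / 2) / (1 / 3 + κ) := ⟨_, rfl⟩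
  have hσ0 : 0 < σ := by rw [hσ]; positivity
  have hσe : σ * (1 / 3 + κ) = κ / 2 := by
    rw [hσ]
    field_simp
  obtain ⟨N1, h1⟩ := ev_pow (2 * C + B) 2 (2 / 3) (by norm_num)
  obtain ⟨N2, h2⟩ := ev_pow 0 (2 / c) (1 / 3) (by norm_num)
  obtain ⟨N3, h3⟩ := ev_pow B 1 σ hσ0
  obtain ⟨N4, h4⟩ := ev_pow C 2 (κ / 2) (by positivity)
  obtain ⟨N5, h5⟩ := exists_nat_ge (Real.exp 3)
  refine ⟨N1 + N2 + N3 + N4 + N5 + 16, fun N hN => ?_⟩
  have hN16 : (16 : ℝ) ≤ N := by exact_mod_cast (by omega : 16 ≤ N)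
  have hN0 : (0 : ℝ) < N := by linarith
  have a1 := h1 N (by omega)
  have a2 := h2 N (by omega)
  have a3 := h3 N (by omega)
  have a4 := h4 N (by omega)
  have hl : 3 ≤ Real.log N := by
    rw [Real.le_log_iff_exp_le hN0]
    exact h5.trans (by exact_mod_cast (by omega : N5 ≤ N))
  rw [pow_zero, mul_one] at a2
  rw [one_mul] at a3
  refine ⟨by omega, hl, a1, a2, ?_⟩
  have hlB : 0 < Real.log N ^ B := by positivity
  have b1 : (N : ℝ) ^ (1 - σ) ≤ (N : ℝ) / Real.log N ^ B := by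
    rw [le_div_iff₀ hlB, Real.rpow_sub hN0, Real.rpow_one]
    have b2 : 0 < (N : ℝ) ^ σ := Real.rpow_pos_of_pos hN0 _
    rw [div_mul_eq_mul_div, div_le_iff₀ b2]
    exact mul_le_mul_of_nonneg_left a3 hN0.le
  calc 2 * ((N : ℝ) ^ (1 / 3 : ℝ) * Real.log N ^ C) = (N : ℝ) ^ (1 / 3 : ℝ) * (2 * Real.log N ^ C) := by ring
    _ ≤ (N : ℝ) ^ (1 / 3 : ℝ) * (N : ℝ) ^ (κ / 2) :=
        mul_le_mul_of_nonneg_left a4 (Real.rpow_nonneg hN0.le _)
    _ = (N : ℝ) ^ ((1 - σ) * (1 / 3 + κ)) := by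
        rw [← Real.rpow_add hN0]
        congr 1
        have : (1 - σ) * (1 / 3 + κ) = 1 / 3 + κ - σ * (1 / 3 + κ) := by ring
        rw [this, hσe]
        ring
    _ = ((N : ℝ) ^ (1 - σ)) ^ (1 / 3 + κ) := Real.rpow_mul hN0.le _ _
    _ ≤ ((N : ℝ) / Real.log N ^ B) ^ (1 / 3 + κ) := by
        apply Real.rpow_le_rpow (Real.rpow_nonneg hN0.le _) b1
        positivity

theorem thin_close {r : ℕ} {α : Fin r → ℝ} (hα : Independent α) {κ δ : ℝ} (hκ : 0 < κ) (hδ : 0 < δ) :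
    Thin (Close α κ δ) := by
  classical
  intro A
  obtain ⟨D, C, N1, hb⟩ := Pool.Agent.Run7.h609.MK.bohr Pool.Agent.Run7.h794.MK.all_all r (A + 1) (δ / 2) (by positivity)
  obtain ⟨c, hc, hsep⟩ := sep hα D
  obtain ⟨N2, hlarge⟩ := win_large (A + 1) C κ c hκ
  refine ⟨max N1 N2, fun N hN => ?_⟩
  obtain ⟨hN16, hl3, g1, g2, g3⟩ := hlarge N (le_trans (le_max_right _ _) hN)
  have hNr : (16 : ℝ) ≤ N := by exact_mod_cast hN16
  have hN0 : (0 : ℝ) < N := by linarith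
  obtain ⟨L, hL⟩ : ∃ L, L = Real.log N := ⟨_, rfl⟩
  rw [← hL] at hl3 g1 g3
  have hL0 : 0 < L := by linarith
  have hL1 : 1 ≤ L := by linarith
  obtain ⟨y, hy⟩ : ∃ y, y = (N : ℝ) ^ (1 / 3 : ℝ) := ⟨_, rfl⟩
  have hy0 : 0 < y := by rw [hy]; exact Real.rpow_pos_of_pos hN0 _
  have hy1 : 1 ≤ y := by
    rw [hy]
    exact Real.one_le_rpow (by linarith) (by norm_num)
  have hyy : (N : ℝ) ^ (2 / 3 : ℝ) * y = N := by
    rw [hy, ← Real.rpow_add hN0]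
    norm_num
  rw [← hy] at g2 g3
  obtain ⟨H, hH⟩ : ∃ H, H = ⌈y * L ^ C⌉₊ := ⟨_, rfl⟩
  have hLC : 1 ≤ L ^ C := one_le_pow₀ hL1
  have hyL : 1 ≤ y * L ^ C := by nlinarith
  have hH1 : y * L ^ C ≤ H := by rw [hH]; exact Nat.le_ceil _
  have hH2 : (H : ℝ) ≤ 2 * (y * L ^ C) := by
    have h3 := Nat.ceil_lt_add_one (show 0 ≤ y * L ^ C by positivity)
    rw [← hH] at h3
    linarith
  have hH0 : (0 : ℝ) < H := by linarith
  have hH0' : 0 < H := by exact_mod_cast hH0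
  have hbig : (H : ℝ) * L ^ (C + (A + 1)) ≤ N := by
    calc (H : ℝ) * L ^ (C + (A + 1)) ≤ 2 * (y * L ^ C) * L ^ (C + (A + 1)) :=
          mul_le_mul_of_nonneg_right hH2 (by positivity)
      _ = (2 * L ^ (2 * C + (A + 1))) * y := by
          have e0 : L ^ (2 * C + (A + 1)) = L ^ C * L ^ (C + (A + 1)) := by
            rw [← pow_add]
            congr 1
            ring
          rw [e0]
          ring
      _ ≤ (N : ℝ) ^ (2 / 3 : ℝ) * y := mul_le_mul_of_nonneg_right g1 hy0.le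
      _ = N := hyy
  have c1 : (N : ℝ) ^ (1 / 3 : ℝ) * Real.log N ^ C ≤ H := by rw [← hy, ← hL]; exact hH1
  have c2 : (H : ℝ) * Real.log N ^ C ≤ N := by
    rw [← hL]
    exact (mul_le_mul_of_nonneg_left (pow_le_pow_right₀ hL1 (by omega)) hH0.le).trans hbig
  have c3 : ∀ h : Fin r → ℤ, h ≠ 0 → (∀ j, |h j| ≤ D) → ∀ b : ℤ, Real.log N ^ C / H < |∑ j, (h j : ℝ) * α j - b| := by
    intro h h0 h1 b
    refine lt_of_lt_of_le ?_ (hsep h h0 h1 b)
    rw [← hL, div_lt_iff₀ hH0]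
    have h2 : L ^ C * 1 ≤ L ^ C * (c / 2 * y) := by
      apply mul_le_mul_of_nonneg_left _ (by positivity)
      have h3 : c / 2 * (2 / c) ≤ c / 2 * y := mul_le_mul_of_nonneg_left g2 (by positivity)
      have h4 : c / 2 * (2 / c) = 1 := by field_simp
      linarith
    have h3 : c / 2 * (y * L ^ C) ≤ c / 2 * H := mul_le_mul_of_nonneg_left hH1 (by positivity)
    have h4 : 0 < c * H := by positivity
    nlinarith
  obtain ⟨E, hE, hgood⟩ := hb N (le_trans (le_max_left _ _) hN) H c1 c2 α c3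
  rw [← hL] at hE
  -- a window of a good starting point has primes
  have hwin : ∀ n : ℕ, 1 ≤ n → n ≤ N → n ∉ E → ∀ u v : Fin r → ℝ, (∀ j, u j ≤ v j) → (∀ j, v j ≤ u j + 1) →
      δ ≤ ∏ j, (v j - u j) → ∃ p : ℕ, n < p ∧ p ≤ n + H ∧ Bohr α u v p := by
    intro n h1 h2 h3 u v hu hv hvol
    have h4 := (abs_le.1 (hgood n h1 h2 h3 u v hu hv)).1
    rw [← hL] at h4
    have h5 : 0 < (H : ℝ) / L := by positivity
    have h6 : δ * ((H : ℝ) / L) ≤ (∏ j, (v j - u j)) * (H / L) := mul_le_mul_of_nonneg_right hvol h5.le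
    have h7 : 0 < δ * ((H : ℝ) / L) := by positivity
    have h8 : (0 : ℝ) < (((Ioc n (n + H)).filter (fun p : ℕ => p.Prime ∧
        ∀ j, Int.fract (α j * p - u j) < v j - u j)).card : ℝ) := by linarith
    have h9 : 0 < ((Ioc n (n + H)).filter (fun p : ℕ => p.Prime ∧
        ∀ j, Int.fract (α j * p - u j) < v j - u j)).card := by exact_mod_cast h8
    obtain ⟨p, hp⟩ := card_pos.1 h9
    obtain ⟨g4, g5⟩ := Finset.mem_filter.1 hp
    rw [mem_Ioc] at g4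
    exact ⟨p, g4.1, g4.2, g5⟩
  obtain ⟨n₀, hn₀⟩ : ∃ n₀, n₀ = ⌊(N : ℝ) / L ^ (A + 1)⌋₊ := ⟨_, rfl⟩
  have hn₀le : (n₀ : ℝ) ≤ N / L ^ (A + 1) := by rw [hn₀]; exact Nat.floor_le (by positivity)
  have hn₀lt : (N : ℝ) / L ^ (A + 1) < n₀ + 1 := by rw [hn₀]; exact Nat.lt_floor_add_one _
  have hHn₀ : (H : ℝ) ≤ N / L ^ (A + 1) := by
    rw [le_div_iff₀ (by positivity)]
    exact (mul_le_mul_of_nonneg_left (pow_le_pow_right₀ hL1 (by omega)) hH0.le).trans hbig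
  have hsub : (Icc 1 N).filter (fun x => ¬ Close α κ δ x) ⊆ Icc 1 n₀ ∪ (E ∪ E.image (fun m => m + H)) := by
    intro x hx
    obtain ⟨h1, h2⟩ := Finset.mem_filter.1 hx
    rw [mem_Icc] at h1
    rw [mem_union, mem_Icc, mem_union, mem_image]
    by_cases h3 : x ≤ n₀
    · exact Or.inl ⟨h1.1, h3⟩
    · right
      by_contra h4
      push Not at h4 h3
      apply h2
      intro u v hu hv hvol
      have hx1 : (n₀ : ℝ) + 1 ≤ x := by exact_mod_cast h3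
      have hxH : H < x := by
        have : (H : ℝ) < x := by linarith
        exact_mod_cast this
      have hpow : (H : ℝ) ≤ (x : ℝ) ^ (1 / 3 + κ) := by
        refine hH2.trans (g3.trans ?_)
        apply Real.rpow_le_rpow (by positivity) (by linarith)
        positivity
      obtain ⟨q, q1, q2, q3⟩ := hwin x h1.1 h1.2 h4.1 u v hu hv hvol
      obtain ⟨p, p1, p2, p3⟩ := hwin (x - H) (by omega) (by omega)
        (fun hm => h4.2 (x - H) hm (by omega)) u v hu hv hvol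
      refine ⟨⟨p, p3, by omega, ?_⟩, ⟨q, q3, q1, ?_⟩⟩
      · have : (x : ℝ) ≤ p + H := by
          have : x ≤ p + H := by omega
          exact_mod_cast this
        linarith
      · have : (q : ℝ) ≤ x + H := by exact_mod_cast q2
        linarith
  have h1 : (((Icc 1 N).filter (fun x => ¬ Close α κ δ x)).card : ℝ) ≤ n₀ + (E.card + E.card) := by
    have h2 := (card_le_card hsub).trans ((card_union_le _ _).trans
      (Nat.add_le_add_left ((card_union_le _ _).trans (Nat.add_le_add_left card_image_le _)) _))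
    rw [Nat.card_Icc] at h2
    have h3 : ((Icc 1 N).filter (fun x => ¬ Close α κ δ x)).card ≤ n₀ + (E.card + E.card) := by omega
    exact_mod_cast h3
  rw [← hL]
  have h2 : (N : ℝ) / L ^ (A + 1) = N / L ^ A / L := by rw [pow_succ, div_div]
  have h3 : (N : ℝ) / L ^ A / L ≤ N / L ^ A / 3 := div_le_div_of_nonneg_left (by positivity) (by norm_num) hl3
  rw [h2] at hE hn₀le
  linarith

theorem Close.mono {r : ℕ} {α : Fin r → ℝ} {κ κ' δ δ' : ℝ} {x : ℕ} (h : Close α κ δ x) (hκ : κ ≤ κ') (hδ : δ ≤ δ')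
    (hx : 1 ≤ x) : Close α κ' δ' x := by
  intro u v hu hv hvol
  obtain ⟨⟨p, h1, h2, h3⟩, q, h4, h5, h6⟩ := h u v hu hv (hδ.trans hvol)
  have h7 : (x : ℝ) ^ (1 / 3 + κ) ≤ (x : ℝ) ^ (1 / 3 + κ') :=
    Real.rpow_le_rpow_of_exponent_le (by exact_mod_cast hx) (by linarith)
  exact ⟨⟨p, h1, h2, by linarith⟩, q, h4, h5, by linarith⟩

/-- one exceptional set -/
theorem exceptional_close {r : ℕ} {α : Fin r → ℝ} (hα : Independent α) : ∃ F : Set ℕ, IsThin F ∧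
    ∀ κ δ : ℝ, 0 < κ → 0 < δ → ∃ x₀ : ℕ, ∀ x : ℕ, x₀ ≤ x → x ∉ F → Close α κ δ x := by
  obtain ⟨F, hF, h⟩ := diag (fun k x => 1 ≤ x → Close α (1 / ((k : ℝ) + 1)) (1 / ((k : ℝ) + 1)) x)
    (fun k x hc hx => by
      have h1 : 1 / (((k + 1 : ℕ) : ℝ) + 1) ≤ 1 / ((k : ℝ) + 1) := by
        push_cast
        apply one_div_le_one_div_of_le (by positivity)
        linarith
      exact (hc hx).mono h1 h1 hx)
    (fun k => thin_mono (fun x hc _ => hc) (thin_close hα (κ := 1 / ((k : ℝ) + 1)) (δ := 1 / ((k : ℝ) + 1))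
      (by positivity) (by positivity)))
  refine ⟨F, hF, fun κ δ hκ hδ => ?_⟩
  obtain ⟨k, hk⟩ := exists_nat_gt (max (1 / κ) (1 / δ))
  have hk0 : (0 : ℝ) ≤ k := Nat.cast_nonneg _
  have h1 : 1 / ((k : ℝ) + 1) ≤ κ := by
    have h2 : 1 / κ < k := lt_of_le_of_lt (le_max_left _ _) hk
    rw [div_lt_iff₀ hκ] at h2
    rw [div_le_iff₀ (by positivity)]
    nlinarith
  have h2 : 1 / ((k : ℝ) + 1) ≤ δ := by
    have h2 : 1 / δ < k := lt_of_le_of_lt (le_max_right _ _) hk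
    rw [div_lt_iff₀ hδ] at h2
    rw [div_le_iff₀ (by positivity)]
    nlinarith
  obtain ⟨x₀, h3⟩ := h k
  refine ⟨x₀ + 1, fun x hx hxF => ?_⟩
  exact (h3 x (by omega) hxF (by omega)).mono h1 h2 (by omega)

/-- `p < q` are consecutive primes with `α p`, `α q` in the box `[u, v)` modulo one. -/
def Consecutive {r : ℕ} (α u v : Fin r → ℝ) (p q : ℕ) : Prop :=
  p < q ∧ Bohr α u v p ∧ Bohr α u v q ∧ ∀ l, p < l → l < q → ¬ Bohr α u v l

theorem consecutive_of {r : ℕ} {α u v : Fin r → ℝ} {p q m : ℕ} (hp : Bohr α u v p) (hq : Bohr α u v q) (h1 : p ≤ m)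
    (h2 : m < q) : ∃ p' q', Consecutive α u v p' q' ∧ p' ≤ m ∧ m < q' := by
  classical
  obtain ⟨p', hp', hmax⟩ := exists_max_image ((range (m + 1)).filter (Bohr α u v)) id
    ⟨p, Finset.mem_filter.2 ⟨mem_range.2 (by omega), hp⟩⟩
  obtain ⟨q', hq', hmin⟩ := exists_min_image ((Ioc m q).filter (Bohr α u v)) id
    ⟨q, Finset.mem_filter.2 ⟨mem_Ioc.2 ⟨h2, le_rfl⟩, hq⟩⟩
  obtain ⟨a1, a2⟩ := Finset.mem_filter.1 hp'
  obtain ⟨b1, b2⟩ := Finset.mem_filter.1 hq'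
  rw [mem_range] at a1
  rw [mem_Ioc] at b1
  refine ⟨p', q', ⟨by omega, a2, b2, fun l h3 h4 h5 => ?_⟩, by omega, b1.1⟩
  rcases Nat.lt_or_ge m l with h6 | h6
  · have h7 := hmin l (Finset.mem_filter.2 ⟨mem_Ioc.2 ⟨h6, by omega⟩, h5⟩)
    simp only [id] at h7
    omega
  · have h7 := hmax l (Finset.mem_filter.2 ⟨mem_range.2 (by omega), h5⟩)
    simp only [id] at h7
    omega

/-- Around `x` there are consecutive primes of all the boxes of volume at least `δ`, and for such primes `p ≤ x < q` the gap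
is at most `x ^ (1 / 3 + κ)` and `√q - √p` is at most `x ^ (- 1 / 6 + κ)`. -/
def SmallGaps {r : ℕ} (α : Fin r → ℝ) (κ δ x : ℝ) : Prop :=
  ∀ u v : Fin r → ℝ, (∀ j, u j ≤ v j) → (∀ j, v j ≤ u j + 1) → δ ≤ ∏ j, (v j - u j) →
    (∃ p q : ℕ, Consecutive α u v p q ∧ (p : ℝ) ≤ x ∧ x < q) ∧
    ∀ p q : ℕ, Consecutive α u v p q → (p : ℝ) ≤ x → x < q →
      (q : ℝ) - p ≤ x ^ (1 / 3 + κ) ∧ √(q : ℝ) - √(p : ℝ) ≤ x ^ (-(1 / 6) + κ)

theorem Close.smallGaps {r : ℕ} {α : Fin r → ℝ} {κ δ : ℝ} {m : ℕ} (h : Close α (κ / 2) δ m) (hκ : 0 < κ) (hm : 1 ≤ m)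
    (h2 : 2 ≤ (m : ℝ) ^ (κ / 2)) (x : ℝ) (hx : ⌊x⌋₊ = m) : SmallGaps α κ δ x := by
  intro u v hu hv hvol
  have hm1 : (1 : ℝ) ≤ m := by exact_mod_cast hm
  have hx0 : 0 ≤ x := by
    by_contra hcon
    have h0 : ⌊x⌋₊ = 0 := Nat.floor_of_nonpos (by linarith)
    omega
  have hmx : (m : ℝ) ≤ x := by rw [← hx]; exact Nat.floor_le hx0
  have hxm : x < m + 1 := by rw [← hx]; exact Nat.lt_floor_add_one x
  have hx1 : 0 < x := by linarith
  obtain ⟨⟨p', a1, a2, a3⟩, q', b1, b2, b3⟩ := h u v hu hv hvol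
  have hgap : (q' : ℝ) - p' ≤ x ^ (1 / 3 + κ) := by
    have c1 : (m : ℝ) ^ (1 / 3 + κ) = (m : ℝ) ^ (1 / 3 + κ / 2) * (m : ℝ) ^ (κ / 2) := by
      rw [← Real.rpow_add (by linarith)]
      congr 1
      ring
    have c2 : (m : ℝ) ^ (1 / 3 + κ) ≤ x ^ (1 / 3 + κ) := Real.rpow_le_rpow (by linarith) hmx (by positivity)
    have c3 : 0 ≤ (m : ℝ) ^ (1 / 3 + κ / 2) := Real.rpow_nonneg (by linarith) _
    have c4 : (m : ℝ) ^ (1 / 3 + κ / 2) * 2 ≤ (m : ℝ) ^ (1 / 3 + κ / 2) * (m : ℝ) ^ (κ / 2) :=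
      mul_le_mul_of_nonneg_left h2 c3
    linarith
  constructor
  · obtain ⟨p, q, d1, d2, d3⟩ := consecutive_of a1 b1 a2 b2
    refine ⟨p, q, d1, le_trans (by exact_mod_cast d2) hmx, lt_of_lt_of_le hxm ?_⟩
    have : m + 1 ≤ q := d3
    exact_mod_cast this
  · intro p q hc hp hq
    have hpm : p ≤ m := by rw [← hx]; exact Nat.le_floor hp
    have hmq : m < q := by rw [← hx]; exact (Nat.floor_lt hx0).2 hq
    have e1 : p' ≤ p := by
      by_contra hcon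
      exact hc.2.2.2 p' (by omega) (by omega) a1
    have e2 : q ≤ q' := by
      by_contra hcon
      exact hc.2.2.2 q' (by omega) (by omega) b1
    have e3 : (q : ℝ) - p ≤ x ^ (1 / 3 + κ) := by
      have f1 : (p' : ℝ) ≤ p := by exact_mod_cast e1
      have f2 : (q : ℝ) ≤ q' := by exact_mod_cast e2
      linarith
    refine ⟨e3, ?_⟩
    have hs : 0 < √x := Real.sqrt_pos.2 hx1
    have hq2 : √(q : ℝ) * √(q : ℝ) = q := Real.mul_self_sqrt (Nat.cast_nonneg _)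
    have hp2 : √(p : ℝ) * √(p : ℝ) = p := Real.mul_self_sqrt (Nat.cast_nonneg _)
    have hp0 : 0 ≤ √(p : ℝ) := Real.sqrt_nonneg _
    have hpq : √(p : ℝ) ≤ √(q : ℝ) := Real.sqrt_le_sqrt (by
      have : p ≤ q := by omega
      exact_mod_cast this)
    have hxq : √x ≤ √(q : ℝ) := Real.sqrt_le_sqrt hq.le
    have hd : (√(q : ℝ) - √(p : ℝ)) * √x ≤ x ^ (1 / 3 + κ) := by
      calc (√(q : ℝ) - √(p : ℝ)) * √x ≤ (√(q : ℝ) - √(p : ℝ)) * (√(q : ℝ) + √(p : ℝ)) :=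
            mul_le_mul_of_nonneg_left (by linarith) (by linarith)
        _ = √(q : ℝ) * √(q : ℝ) - √(p : ℝ) * √(p : ℝ) := by ring
        _ = q - p := by rw [hq2, hp2]
        _ ≤ x ^ (1 / 3 + κ) := e3
    have hpow : x ^ (1 / 3 + κ) = x ^ (-(1 / 6) + κ) * √x := by
      rw [Real.sqrt_eq_rpow, ← Real.rpow_add hx1]
      congr 1
      ring
    rw [hpow] at hd
    exact le_of_mul_le_mul_right hd hs

/-- the condition of `Close.smallGaps` for large `m` -/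
theorem two_le_pow (κ : ℝ) (hκ : 0 < κ) : ∃ m₀ : ℕ, ∀ m : ℕ, m₀ ≤ m → 1 ≤ m ∧ 2 ≤ (m : ℝ) ^ (κ / 2) := by
  obtain ⟨m₀, h⟩ := ev_pow 0 2 (κ / 2) (by positivity)
  refine ⟨m₀ + 1, fun m hm => ⟨by omega, ?_⟩⟩
  have := h m (by omega)
  rwa [pow_zero, mul_one] at this

end Run7.h946.SQ
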